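import Mathlib

/-!
# Baumslag's trick: groups with `u v u⁻¹ = (x v x⁻¹) v ^ κ`
-/

set_option autoImplicit false
set_option linter.unusedSectionVars false

namespace Pool.Agent.TH88.NP

open Polynomial

variable {A : Type} [Group A]

/-- the Baumslag relations. -/
structure Bgd (κ : ℤ) (v x u : A) : Prop where
  h1 : x * u = u * x
  h2 : v * (x * v * x⁻¹) = (x * v * x⁻¹) * v
  h3 : u * v * u⁻¹ = x * v * x⁻¹ * v ^ κ

/-- the conjugates. -/
def T (v x : A) (n : ℕ) : A := x ^ n * v * (x ^ n)⁻¹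

theorem T_succ (v x : A) (n : ℕ) : x * T v x n * x⁻¹ = T v x (n + 1) := by
  unfold T
  rw [pow_succ']
  group

theorem T_conj (v x : A) (k n : ℕ) : x ^ k * T v x n * (x ^ k)⁻¹ = T v x (n + k) := by
  unfold T
  rw [add_comm, pow_add]
  group

theorem T_comm_shift {v x : A} {i j : ℕ} (h : Commute (T v x i) (T v x j)) (k : ℕ) :
    Commute (T v x (i + k)) (T v x (j + k)) := by
  rw [← T_conj v x k i, ← T_conj v x k j]
  show _ * _ = _ * _
  have h' : T v x i * T v x j = T v x j * T v x i := h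
  calc x ^ k * T v x i * (x ^ k)⁻¹ * (x ^ k * T v x j * (x ^ k)⁻¹)
      = x ^ k * (T v x i * T v x j) * (x ^ k)⁻¹ := by group
    _ = x ^ k * (T v x j * T v x i) * (x ^ k)⁻¹ := by rw [h']
    _ = _ := by group

variable {κ : ℤ} {v x u : A}

theorem Bgd.uT (h : Bgd κ v x u) (n : ℕ) :
    u * T v x n * u⁻¹ = T v x (n + 1) * T v x n ^ κ := by
  have hc : Commute x u := h.h1
  have e1 : u * T v x n * u⁻¹ = x ^ n * (u * v * u⁻¹) * (x ^ n)⁻¹ := by
    unfold T
    have h2 : u * x ^ n = x ^ n * u := (hc.pow_left n).eq.symm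
    have h3 : (x ^ n)⁻¹ * u⁻¹ = u⁻¹ * (x ^ n)⁻¹ := by
      rw [← mul_inv_rev, ← mul_inv_rev, h2]
    calc u * (x ^ n * v * (x ^ n)⁻¹) * u⁻¹ = (u * x ^ n) * v * ((x ^ n)⁻¹ * u⁻¹) := by group
      _ = (x ^ n * u) * v * (u⁻¹ * (x ^ n)⁻¹) := by rw [h2, h3]
      _ = _ := by group
  rw [e1, h.h3]
  have e2 : T v x n ^ κ = x ^ n * v ^ κ * (x ^ n)⁻¹ := by
    unfold T
    rw [conj_zpow]
  rw [e2]
  unfold T
  rw [pow_succ]
  group

theorem comm_of_prod {a b w : A} (h1 : Commute (a * b) w) (h2 : Commute a w) : Commute b w := by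
  have : b = a⁻¹ * (a * b) := by group
  rw [this]
  exact h2.inv_left.mul_left h1

theorem Bgd.T0 (h : Bgd κ v x u) (hκ : κ = 1 ∨ κ = -1) : ∀ n : ℕ, Commute (T v x 0) (T v x n) := by
  have hz : ∀ {a w : A}, Commute (a ^ κ) w → Commute a w := by
    intro a w haw
    rcases hκ with rfl | rfl
    · simpa using haw
    · rw [zpow_neg_one] at haw
      simpa using haw
  have key : ∀ n : ℕ, Commute (T v x 0) (T v x n) ∧ Commute (T v x 0) (T v x (n + 1)) := by
    intro n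
    induction n with
    | zero =>
      refine ⟨Commute.refl _, ?_⟩
      show _ * _ = _ * _
      unfold T
      have := h.h2
      simpa using this
    | succ n ih =>
      obtain ⟨i1, i2⟩ := ih
      refine ⟨i2, ?_⟩
      have c1 : Commute (u * T v x 0 * u⁻¹) (u * T v x (n + 1) * u⁻¹) := by
        show _ * _ = _ * _
        have i2' : T v x 0 * T v x (n + 1) = T v x (n + 1) * T v x 0 := i2
        calc u * T v x 0 * u⁻¹ * (u * T v x (n + 1) * u⁻¹)
            = u * (T v x 0 * T v x (n + 1)) * u⁻¹ := by group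
          _ = u * (T v x (n + 1) * T v x 0) * u⁻¹ := by rw [i2']
          _ = _ := by group
      rw [h.uT, h.uT] at c1
      have s1 : Commute (T v x 1) (T v x (n + 1 + 1)) := by
        have := T_comm_shift i2 1
        rwa [zero_add] at this
      have s2 : Commute (T v x 1) (T v x (n + 1)) := by
        have := T_comm_shift i1 1
        rwa [zero_add] at this
      have c2 : Commute (T v x (0 + 1)) (T v x (n + 1 + 1) * T v x (n + 1) ^ κ) :=
        s1.mul_right (s2.zpow_right κ)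
      have c3 := hz (comm_of_prod c1 c2)
      have c4 : Commute (T v x 0) (T v x (n + 1) ^ κ) := i2.zpow_right κ
      have e : T v x (n + 1 + 1) =
          (T v x (n + 1 + 1) * T v x (n + 1) ^ κ) * (T v x (n + 1) ^ κ)⁻¹ := by group
      rw [e]
      exact c3.mul_right c4.inv_right
  exact fun n => (key n).1

theorem Bgd.Tc (h : Bgd κ v x u) (hκ : κ = 1 ∨ κ = -1) (n m : ℕ) :
    Commute (T v x n) (T v x m) := by
  rcases le_total n m with hnm | hnm
  · obtain ⟨k, rfl⟩ := Nat.exists_eq_add_of_le hnm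
    have := T_comm_shift (h.T0 hκ k) n
    rwa [zero_add, add_comm k] at this
  · obtain ⟨k, rfl⟩ := Nat.exists_eq_add_of_le hnm
    have := T_comm_shift (h.T0 hκ k) m
    rw [zero_add, add_comm k] at this
    exact this.symm

/-- a homomorphism `θ` from polynomials with `θ (a X ^ n) = (x ^ n v x ^ (-n)) ^ a`. -/
theorem Bgd.exists_theta (h : Bgd κ v x u) (hκ : κ = 1 ∨ κ = -1) :
    ∃ θ : ℤ[X] → A, (∀ f g, θ (f + g) = θ f * θ g) ∧
      (∀ n a, θ (monomial n a) = T v x n ^ a) := by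
  let K : Subgroup A := Subgroup.closure (Set.range (T v x))
  have hT : ∀ n, T v x n ∈ K := fun n => Subgroup.subset_closure ⟨n, rfl⟩
  letI : CommGroup K := Subgroup.closureCommGroupOfComm (by
    rintro _ ⟨n, rfl⟩ _ ⟨m, rfl⟩
    exact h.Tc hκ n m)
  let L : ℤ[X] →ₗ[ℤ] Additive K :=
    (Polynomial.basisMonomials ℤ).constr ℤ (fun n => Additive.ofMul (⟨T v x n, hT n⟩ : K))
  refine ⟨fun f => ((Additive.toMul (L f) : K) : A), ?_, ?_⟩
  · intro f g
    show ((Additive.toMul (L (f + g)) : K) : A) = _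
    rw [map_add]
    rfl
  · intro n a
    have e1 : (monomial n a : ℤ[X]) = a • (Polynomial.basisMonomials ℤ n) := by
      rw [Polynomial.coe_basisMonomials, smul_monomial, smul_eq_mul, mul_one]
    show ((Additive.toMul (L (monomial n a)) : K) : A) = _
    rw [e1, map_zsmul, Module.Basis.constr_basis]
    rfl

/-- the choice. -/
noncomputable def Bgd.th (h : Bgd κ v x u) (hκ : κ = 1 ∨ κ = -1) : ℤ[X] → A :=
  (h.exists_theta hκ).choose

theorem Bgd.th_add (h : Bgd κ v x u) (hκ : κ = 1 ∨ κ = -1) (f g : ℤ[X]) :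
    h.th hκ (f + g) = h.th hκ f * h.th hκ g := (h.exists_theta hκ).choose_spec.1 f g

theorem Bgd.th_mon (h : Bgd κ v x u) (hκ : κ = 1 ∨ κ = -1) (n : ℕ) (a : ℤ) :
    h.th hκ (monomial n a) = T v x n ^ a := (h.exists_theta hκ).choose_spec.2 n a

theorem Bgd.th_zero (h : Bgd κ v x u) (hκ : κ = 1 ∨ κ = -1) : h.th hκ 0 = 1 := by
  have := h.th_mon hκ 0 0
  rwa [monomial_zero_right, zpow_zero] at this

theorem Bgd.th_neg (h : Bgd κ v x u) (hκ : κ = 1 ∨ κ = -1) (f : ℤ[X]) :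
    h.th hκ (-f) = (h.th hκ f)⁻¹ := by
  have := h.th_add hκ (-f) f
  rw [neg_add_cancel, h.th_zero] at this
  exact eq_inv_of_mul_eq_one_left this.symm

theorem Bgd.th_x (h : Bgd κ v x u) (hκ : κ = 1 ∨ κ = -1) (f : ℤ[X]) :
    x * h.th hκ f * x⁻¹ = h.th hκ (X * f) := by
  induction f using Polynomial.induction_on' with
  | add f g hf hg =>
    rw [mul_add, h.th_add, h.th_add, ← hf, ← hg]
    group
  | monomial n a =>
    rw [Polynomial.X_mul_monomial, h.th_mon, h.th_mon, ← T_succ, conj_zpow]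

theorem Bgd.th_u (h : Bgd κ v x u) (hκ : κ = 1 ∨ κ = -1) (f : ℤ[X]) :
    u * h.th hκ f * u⁻¹ = h.th hκ ((X + C κ) * f) := by
  induction f using Polynomial.induction_on' with
  | add f g hf hg =>
    rw [mul_add, h.th_add, h.th_add, ← hf, ← hg]
    group
  | monomial n a =>
    rw [add_mul, Polynomial.X_mul_monomial, Polynomial.C_mul_monomial, h.th_add, h.th_mon, h.th_mon,
      h.th_mon, ← conj_zpow, h.uT, zpow_mul]
    exact ((h.Tc hκ (n + 1) n).zpow_right κ).mul_zpow a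

/-- the normal subgroup, elementwise. -/
def Bgd.nn (h : Bgd κ v x u) (hκ : κ = 1 ∨ κ = -1) (g : A) (k j : ℕ) (f : ℤ[X]) : Prop :=
  (x ^ k * u ^ j) * g * (x ^ k * u ^ j)⁻¹ = h.th hκ f

theorem Bgd.th_xk (h : Bgd κ v x u) (hκ : κ = 1 ∨ κ = -1) (k : ℕ) (f : ℤ[X]) :
    x ^ k * h.th hκ f * (x ^ k)⁻¹ = h.th hκ (X ^ k * f) := by
  induction k with
  | zero => simp
  | succ k ih =>
    have e : (X : ℤ[X]) ^ (k + 1) * f = X * (X ^ k * f) := by ring
    rw [e, ← h.th_x hκ, ← ih, pow_succ']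
    group

theorem Bgd.th_uk (h : Bgd κ v x u) (hκ : κ = 1 ∨ κ = -1) (k : ℕ) (f : ℤ[X]) :
    u ^ k * h.th hκ f * (u ^ k)⁻¹ = h.th hκ ((X + C κ) ^ k * f) := by
  induction k with
  | zero => simp
  | succ k ih =>
    have e : (X + C κ : ℤ[X]) ^ (k + 1) * f = (X + C κ) * ((X + C κ) ^ k * f) := by ring
    rw [e, ← h.th_u hκ, ← ih, pow_succ']
    group

theorem Bgd.nn_raise (h : Bgd κ v x u) (hκ : κ = 1 ∨ κ = -1) {g : A} {k j : ℕ} {f : ℤ[X]}
    (hg : h.nn hκ g k j f) (k' j' : ℕ) :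
    h.nn hκ g (k + k') (j + j') (X ^ k' * ((X + C κ) ^ j' * f)) := by
  unfold Bgd.nn at *
  rw [← h.th_xk, ← h.th_uk, ← hg]
  have hc : Commute x u := h.h1
  have e : x ^ (k + k') * u ^ (j + j') = x ^ k' * (u ^ j' * (x ^ k * u ^ j)) := by
    have c1 : x ^ k * u ^ j' = u ^ j' * x ^ k := (hc.pow_pow k j').eq
    rw [add_comm k, add_comm j, pow_add, pow_add]
    calc x ^ k' * x ^ k * (u ^ j' * u ^ j) = x ^ k' * (x ^ k * u ^ j') * u ^ j := by group
      _ = x ^ k' * (u ^ j' * x ^ k) * u ^ j := by rw [c1]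
      _ = _ := by group
  rw [e]
  group

theorem Bgd.nn_mul (h : Bgd κ v x u) (hκ : κ = 1 ∨ κ = -1) {g g' : A} {k j k' j' : ℕ}
    {f f' : ℤ[X]} (hg : h.nn hκ g k j f) (hg' : h.nn hκ g' k' j' f') :
    ∃ f'', h.nn hκ (g * g') (k + k') (j + j') f'' := by
  have a := h.nn_raise hκ hg k' j'
  have b := h.nn_raise hκ hg' k j
  rw [add_comm k', add_comm j'] at b
  refine ⟨X ^ k' * ((X + C κ) ^ j' * f) + X ^ k * ((X + C κ) ^ j * f'), ?_⟩
  · unfold Bgd.nn at *
    have : x ^ (k + k') * u ^ (j + j') * (g * g') * (x ^ (k + k') * u ^ (j + j'))⁻¹ =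
        (x ^ (k + k') * u ^ (j + j') * g * (x ^ (k + k') * u ^ (j + j'))⁻¹) *
        (x ^ (k + k') * u ^ (j + j') * g' * (x ^ (k + k') * u ^ (j + j'))⁻¹) := by group
    rw [this, a, b]
    exact (h.th_add hκ _ _).symm

/-- the normal form. -/
def Bgd.nf (h : Bgd κ v x u) (hκ : κ = 1 ∨ κ = -1) (g : A) : Prop :=
  ∃ (n : A) (a b : ℤ) (k j : ℕ) (f : ℤ[X]), h.nn hκ n k j f ∧ g = n * x ^ a * u ^ b

theorem Bgd.nn_v (h : Bgd κ v x u) (hκ : κ = 1 ∨ κ = -1) (e : ℤ) :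
    h.nn hκ (v ^ e) 0 0 (monomial 0 e) := by
  unfold Bgd.nn
  rw [h.th_mon]
  simp [T]

theorem Bgd.nn_x (h : Bgd κ v x u) (hκ : κ = 1 ∨ κ = -1) {g : A} {k j : ℕ} {f : ℤ[X]}
    (hg : h.nn hκ g k j f) : h.nn hκ (x * g * x⁻¹) k j (X * f) := by
  unfold Bgd.nn at *
  have hc : Commute x u := h.h1
  have e : x ^ k * u ^ j * x = x * (x ^ k * u ^ j) :=
    (((Commute.refl x).pow_right k).mul_right (hc.pow_right j)).eq.symm
  have e' : x⁻¹ * (x ^ k * u ^ j)⁻¹ = (x ^ k * u ^ j)⁻¹ * x⁻¹ := by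
    rw [← mul_inv_rev, ← mul_inv_rev, e]
  rw [← h.th_x, ← hg]
  calc x ^ k * u ^ j * (x * g * x⁻¹) * (x ^ k * u ^ j)⁻¹
      = (x ^ k * u ^ j * x) * g * (x⁻¹ * (x ^ k * u ^ j)⁻¹) := by group
    _ = _ := by rw [e, e']; group

theorem Bgd.nn_xi (h : Bgd κ v x u) (hκ : κ = 1 ∨ κ = -1) {g : A} {k j : ℕ} {f : ℤ[X]}
    (hg : h.nn hκ g k j f) : h.nn hκ (x⁻¹ * g * x) (k + 1) j f := by
  unfold Bgd.nn at *
  have hc : Commute x u := h.h1
  have e : x ^ (k + 1) * u ^ j = x ^ k * u ^ j * x := by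
    rw [pow_succ, mul_assoc, (hc.pow_right j).eq, mul_assoc]
  rw [e, ← hg]
  group

theorem Bgd.nn_u (h : Bgd κ v x u) (hκ : κ = 1 ∨ κ = -1) {g : A} {k j : ℕ} {f : ℤ[X]}
    (hg : h.nn hκ g k j f) : h.nn hκ (u * g * u⁻¹) k j ((X + C κ) * f) := by
  unfold Bgd.nn at *
  have hc : Commute x u := h.h1
  have e : x ^ k * u ^ j * u = u * (x ^ k * u ^ j) :=
    ((hc.symm.pow_right k).mul_right ((Commute.refl u).pow_right j)).eq.symm
  have e' : u⁻¹ * (x ^ k * u ^ j)⁻¹ = (x ^ k * u ^ j)⁻¹ * u⁻¹ := by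
    rw [← mul_inv_rev, ← mul_inv_rev, e]
  rw [← h.th_u, ← hg]
  calc x ^ k * u ^ j * (u * g * u⁻¹) * (x ^ k * u ^ j)⁻¹
      = (x ^ k * u ^ j * u) * g * (u⁻¹ * (x ^ k * u ^ j)⁻¹) := by group
    _ = _ := by rw [e, e']; group

theorem Bgd.nn_ui (h : Bgd κ v x u) (hκ : κ = 1 ∨ κ = -1) {g : A} {k j : ℕ} {f : ℤ[X]}
    (hg : h.nn hκ g k j f) : h.nn hκ (u⁻¹ * g * u) k (j + 1) f := by
  unfold Bgd.nn at *
  have e : x ^ k * u ^ (j + 1) = x ^ k * u ^ j * u := by
    rw [pow_succ, mul_assoc]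
  rw [e, ← hg]
  group

theorem Bgd.nf_all (h : Bgd κ v x u) (hκ : κ = 1 ∨ κ = -1)
    (hgen : Subgroup.closure {v, x, u} = (⊤ : Subgroup A)) (g : A) : h.nf hκ g := by
  have hc : Commute x u := h.h1
  have hg : g ∈ Subgroup.closure ({v, x, u} : Set A) := by rw [hgen]; trivial
  induction hg using Subgroup.closure_induction_left with
  | one =>
    refine ⟨1, 0, 0, 0, 0, 0, ?_, by simp⟩
    unfold Bgd.nn
    rw [h.th_zero]
    simp
  | mul_left s hs y _ ih =>
    obtain ⟨n, a, b, k, j, f, hn, rfl⟩ := ih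
    rcases hs with hs | hs | hs <;> rw [hs]
    · obtain ⟨f'', hf⟩ := h.nn_mul hκ (h.nn_v hκ 1) hn
      rw [zpow_one] at hf
      exact ⟨_, a, b, _, _, _, hf, by group⟩
    · exact ⟨_, a + 1, b, _, _, _, h.nn_x hκ hn, by group⟩
    · refine ⟨_, a, b + 1, _, _, _, h.nn_u hκ hn, ?_⟩
      rw [zpow_add, zpow_one]
      have c1 : u * x ^ a = x ^ a * u := (hc.zpow_left a).eq.symm
      have c2 : u ^ b * u = u * u ^ b := ((Commute.refl u).zpow_left b).eq
      rw [c2]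
      calc u * (n * x ^ a * u ^ b) = u * n * u⁻¹ * (u * x ^ a) * u ^ b := by group
        _ = _ := by rw [c1]; group
  | inv_mul_cancel s hs y _ ih =>
    obtain ⟨n, a, b, k, j, f, hn, rfl⟩ := ih
    rcases hs with hs | hs | hs <;> rw [hs]
    · obtain ⟨f'', hf⟩ := h.nn_mul hκ (h.nn_v hκ (-1)) hn
      rw [zpow_neg_one] at hf
      exact ⟨_, a, b, _, _, _, hf, by group⟩
    · exact ⟨_, a - 1, b, _, _, _, h.nn_xi hκ hn, by group⟩
    · refine ⟨_, a, b - 1, _, _, _, h.nn_ui hκ hn, ?_⟩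
      have c1 : u⁻¹ * x ^ a = x ^ a * u⁻¹ := ((hc.zpow_left a).inv_right).eq.symm
      have c2 : u ^ (b - 1) = u⁻¹ * u ^ b := by rw [sub_eq_neg_add, zpow_add, zpow_neg_one]
      rw [c2]
      calc u⁻¹ * (n * x ^ a * u ^ b) = u⁻¹ * n * u * (u⁻¹ * x ^ a) * u ^ b := by group
        _ = _ := by rw [c1]; group

/-- evaluation. -/
theorem Bgd.eval (h : Bgd κ v x u) (hκ : κ = 1 ∨ κ = -1) {R : Type} [CommRing R]
    (ρ : A →* Equiv.Perm R) (m : R) (hv : ∀ q, ρ v q = 1 + q) (hx : ∀ q, ρ x q = m * q)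
    (f : ℤ[X]) (q : R) : ρ (h.th hκ f) q = f.eval₂ (Int.castRingHom R) m + q := by
  have hxn : ∀ (n : ℕ) (q : R), ρ (x ^ n) q = m ^ n * q := by
    intro n
    induction n with
    | zero => intro q; simp
    | succ n ih =>
      intro q
      rw [pow_succ', map_mul, Equiv.Perm.mul_apply, ih, hx, pow_succ', mul_assoc]
  have hT : ∀ (n : ℕ) (q : R), ρ (T v x n) q = m ^ n + q := by
    intro n q
    unfold T
    rw [map_mul, map_mul, Equiv.Perm.mul_apply, Equiv.Perm.mul_apply, hxn, hv]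
    have : m ^ n * ρ (x ^ n)⁻¹ q = q := by
      rw [← hxn, ← Equiv.Perm.mul_apply, ← map_mul, mul_inv_cancel, map_one]
      rfl
    rw [mul_add, this, mul_one]
  have hTa : ∀ (n : ℕ) (a : ℤ) (q : R), ρ (T v x n ^ a) q = (a : R) * m ^ n + q := by
    intro n a
    have hpos : ∀ (c : ℕ) (q : R), ρ (T v x n ^ c) q = (c : R) * m ^ n + q := by
      intro c
      induction c with
      | zero => intro q; simp
      | succ c ih =>
        intro q
        rw [pow_succ', map_mul, Equiv.Perm.mul_apply, ih, hT]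
        push_cast
        ring
    intro q
    obtain ⟨c, rfl | rfl⟩ := a.eq_nat_or_neg
    · rw [zpow_natCast, hpos]
      push_cast
      ring
    · have h1 : ρ (T v x n ^ c) (ρ (T v x n ^ (-(c : ℤ))) q) = q := by
        rw [← Equiv.Perm.mul_apply, ← map_mul, zpow_neg, zpow_natCast, mul_inv_cancel, map_one]
        rfl
      rw [hpos] at h1
      push_cast
      linear_combination h1
  induction f using Polynomial.induction_on' generalizing q with
  | add f g hf hg =>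
    rw [h.th_add, map_mul, Equiv.Perm.mul_apply, hg, hf, eval₂_add]
    ring
  | monomial n a =>
    rw [h.th_mon, hTa, eval₂_monomial]
    simp

end Pool.Agent.TH88.NP
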