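import Mathlib
import Pool.Agent.TH88.NP.Bg
import Pool.Agent.TH88.SI.Z2

/-!
# The groups `B κ`, `A = B (-1) × B 1`, and the subgroup `C`
-/

set_option autoImplicit false
set_option linter.unusedSectionVars false

namespace Pool.Agent.TH88.NP

open Polynomial

/-- relations. -/
def rels (κ : ℤ) : Set (FreeGroup (Fin 3)) :=
  {FreeGroup.of 1 * FreeGroup.of 2 * (FreeGroup.of 2 * FreeGroup.of 1)⁻¹,
   FreeGroup.of 0 * (FreeGroup.of 1 * FreeGroup.of 0 * (FreeGroup.of 1)⁻¹) *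
    ((FreeGroup.of 1 * FreeGroup.of 0 * (FreeGroup.of 1)⁻¹) * FreeGroup.of 0)⁻¹,
   FreeGroup.of 2 * FreeGroup.of 0 * (FreeGroup.of 2)⁻¹ *
    (FreeGroup.of 1 * FreeGroup.of 0 * (FreeGroup.of 1)⁻¹ * (FreeGroup.of 0) ^ κ)⁻¹}

/-- the group. -/
abbrev B (κ : ℤ) : Type := PresentedGroup (rels κ)

/-- generators. -/
def bv (κ : ℤ) : B κ := PresentedGroup.of 0
/-- generators. -/
def bx (κ : ℤ) : B κ := PresentedGroup.of 1
/-- generators. -/
def bu (κ : ℤ) : B κ := PresentedGroup.of 2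

theorem B_bgd (κ : ℤ) : Bgd κ (bv κ) (bx κ) (bu κ) := by
  refine ⟨?_, ?_, ?_⟩
  · have h := PresentedGroup.one_of_mem (rels := rels κ)
      (x := FreeGroup.of 1 * FreeGroup.of 2 * (FreeGroup.of 2 * FreeGroup.of 1)⁻¹) (Or.inl rfl)
    rw [map_mul, map_inv, map_mul, map_mul] at h
    exact mul_inv_eq_one.1 h
  · have h := PresentedGroup.one_of_mem (rels := rels κ)
      (x := FreeGroup.of 0 * (FreeGroup.of 1 * FreeGroup.of 0 * (FreeGroup.of 1)⁻¹) *
        ((FreeGroup.of 1 * FreeGroup.of 0 * (FreeGroup.of 1)⁻¹) * FreeGroup.of 0)⁻¹)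
      (Or.inr (Or.inl rfl))
    simp only [map_mul, map_inv] at h
    exact mul_inv_eq_one.1 h
  · have h := PresentedGroup.one_of_mem (rels := rels κ)
      (x := FreeGroup.of 2 * FreeGroup.of 0 * (FreeGroup.of 2)⁻¹ *
        (FreeGroup.of 1 * FreeGroup.of 0 * (FreeGroup.of 1)⁻¹ * (FreeGroup.of 0) ^ κ)⁻¹)
      (Or.inr (Or.inr rfl))
    simp only [map_mul, map_inv, map_zpow] at h
    exact mul_inv_eq_one.1 h

theorem B_gen (κ : ℤ) : Subgroup.closure {bv κ, bx κ, bu κ} = (⊤ : Subgroup (B κ)) := by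
  rw [← PresentedGroup.closure_range_of (rels κ)]
  congr 1
  ext g
  constructor
  · rintro (rfl | rfl | rfl)
    exacts [⟨0, rfl⟩, ⟨1, rfl⟩, ⟨2, rfl⟩]
  · rintro ⟨i, rfl⟩
    fin_cases i
    exacts [Or.inl rfl, Or.inr (Or.inl rfl), Or.inr (Or.inr rfl)]

theorem B_lift {κ : ℤ} {W : Type} [Group W] {v x u : W} (h : Bgd κ v x u) :
    ∃ φ : B κ →* W, φ (bv κ) = v ∧ φ (bx κ) = x ∧ φ (bu κ) = u := by
  have hr : ∀ r ∈ rels κ, FreeGroup.lift (![v, x, u] : Fin 3 → W) r = 1 := by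
    rintro r (rfl | rfl | rfl)
    · simp only [map_mul, map_inv, FreeGroup.lift_apply_of]
      exact mul_inv_eq_one.2 h.h1
    · simp only [map_mul, map_inv, FreeGroup.lift_apply_of]
      exact mul_inv_eq_one.2 h.h2
    · simp only [map_mul, map_inv, map_zpow, FreeGroup.lift_apply_of]
      exact mul_inv_eq_one.2 h.h3
  refine ⟨PresentedGroup.toGroup hr, ?_, ?_, ?_⟩
  · exact PresentedGroup.toGroup.of hr
  · exact PresentedGroup.toGroup.of hr
  · exact PresentedGroup.toGroup.of hr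

/-- evaluation homomorphisms. -/
theorem B_eval {κ : ℤ} (hκ : κ = 1 ∨ κ = -1) {R : Type} [CommRing R] (m m' : Rˣ)
    (hm : (m' : R) = m + κ) :
    ∃ ρ : B κ →* Equiv.Perm R, (∀ q, ρ (bv κ) q = 1 + q) ∧ (∀ q, ρ (bx κ) q = m * q) ∧
      (∀ q, ρ (bu κ) q = m' * q) := by
  have hb : Bgd κ (Equiv.addLeft (1 : R)) (Units.mulLeft m) (Units.mulLeft m') := by
    refine ⟨?_, ?_, ?_⟩
    · ext q
      show (m : R) * ((m' : R) * q) = m' * (m * q)
      ring
    · ext q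
      show 1 + ((m : R) * (1 + ((m⁻¹ : Rˣ) : R) * q)) = m * (1 + ((m⁻¹ : Rˣ) : R) * (1 + q))
      linear_combination (1 : R) * ((m.mul_inv : (m : R) * ((m⁻¹ : Rˣ) : R) = 1)) * (-1 : R)
    · have hk : ∀ q : R, (Equiv.addLeft (1 : R) ^ κ) q = κ + q := by
        intro q
        rcases hκ with rfl | rfl
        · simp
        · rw [zpow_neg_one]
          show -1 + q = _
          push_cast
          ring
      ext q
      show (m' : R) * (1 + ((m'⁻¹ : Rˣ) : R) * q) =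
        m * (1 + ((m⁻¹ : Rˣ) : R) * ((Equiv.addLeft (1 : R) ^ κ) q))
      rw [hk, hm]
      have h1 : (m' : R) * ((m'⁻¹ : Rˣ) : R) = 1 := m'.mul_inv
      rw [hm] at h1
      have h2 : (m : R) * ((m⁻¹ : Rˣ) : R) = 1 := m.mul_inv
      linear_combination q * h1 - (κ + q) * h2
  obtain ⟨φ, h1, h2, h3⟩ := B_lift hb
  exact ⟨φ, fun q => by rw [h1]; rfl, fun q => by rw [h2]; rfl, fun q => by rw [h3]; rfl⟩

/-- exponents. -/
theorem B_exp (κ : ℤ) : ∃ e : B κ →* Multiplicative ℤ × Multiplicative ℤ,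
    e (bv κ) = 1 ∧ e (bx κ) = (Multiplicative.ofAdd 1, 1) ∧ e (bu κ) = (1, Multiplicative.ofAdd 1) := by
  have hb : Bgd κ (1 : Multiplicative ℤ × Multiplicative ℤ) (Multiplicative.ofAdd 1, 1)
      (1, Multiplicative.ofAdd 1) := by
    refine ⟨mul_comm _ _, mul_comm _ _, ?_⟩
    simp
  exact B_lift hb

theorem Bgd.th_triv {A : Type} [Group A] {κ : ℤ} {v x u : A} (h : Bgd κ v x u)
    (hκ : κ = 1 ∨ κ = -1) {W : Type} [Group W] (ρ : A →* W) (hv : ρ v = 1) (f : ℤ[X]) :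
    ρ (h.th hκ f) = 1 := by
  induction f using Polynomial.induction_on' with
  | add f g hf hg => rw [h.th_add, map_mul, hf, hg, mul_one]
  | monomial n a =>
    rw [h.th_mon, map_zpow]
    have : ρ (T v x n) = 1 := by
      unfold T
      rw [map_mul, map_mul, hv, mul_one, ← map_mul, mul_inv_cancel, map_one]
    rw [this, one_zpow]

theorem Bgd.nn_triv {A : Type} [Group A] {κ : ℤ} {v x u : A} (h : Bgd κ v x u)
    (hκ : κ = 1 ∨ κ = -1) {W : Type} [Group W] (ρ : A →* W) (hv : ρ v = 1) {g : A} {k j : ℕ}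
    {f : ℤ[X]} (hg : h.nn hκ g k j f) : ρ g = 1 := by
  unfold Bgd.nn at hg
  have h1 := congrArg ρ hg
  rw [h.th_triv hκ ρ hv, map_mul, map_mul, map_inv] at h1
  have h2 : ρ (x ^ k * u ^ j) * ρ g = ρ (x ^ k * u ^ j) := mul_inv_eq_one.1 h1
  exact mul_eq_left.1 h2

theorem exists_point (f : ℤ[X]) (hf : f ≠ 0) : ∃ (l : ℕ) (_ : Fact l.Prime) (m m₁ m₂ : (ZMod l)ˣ),
    (m₁ : ZMod l) = m + ((-1 : ℤ) : ZMod l) ∧ (m₂ : ZMod l) = m + ((1 : ℤ) : ZMod l) ∧
      f.eval₂ (Int.castRingHom (ZMod l)) (m : ZMod l) ≠ 0 := by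
  obtain ⟨m, hm2, hm⟩ : ∃ m : ℕ, 2 ≤ m ∧ f.eval (m : ℤ) ≠ 0 := by
    by_contra hcon
    push Not at hcon
    apply hf
    refine Polynomial.eq_zero_of_infinite_isRoot f ?_
    refine Set.infinite_of_injective_forall_mem (f := fun n : ℕ => ((n + 2 : ℕ) : ℤ)) ?_ ?_
    · intro a b hab
      simpa using hab
    · intro n
      exact hcon (n + 2) (by omega)
  obtain ⟨l, hl, hlp⟩ := Nat.exists_infinite_primes ((f.eval (m : ℤ)).natAbs + m + 2)
  have hF : Fact l.Prime := ⟨hlp⟩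
  have hunit : ∀ c : ℕ, 0 < c → c < l → IsUnit (c : ZMod l) := by
    intro c hc hcl
    rw [isUnit_iff_ne_zero]
    intro h0
    rw [ZMod.natCast_eq_zero_iff] at h0
    exact absurd (Nat.le_of_dvd hc h0) (by omega)
  obtain ⟨a, ha⟩ := hunit m (by omega) (by omega)
  obtain ⟨a₁, ha₁⟩ := hunit (m - 1) (by omega) (by omega)
  obtain ⟨a₂, ha₂⟩ := hunit (m + 1) (by omega) (by omega)
  refine ⟨l, hF, a, a₁, a₂, ?_, ?_, ?_⟩
  · rw [ha, ha₁, Nat.cast_sub (by omega)]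
    push_cast
    ring
  · rw [ha, ha₂]
    push_cast
    ring
  · rw [ha]
    have h1 : f.eval₂ (Int.castRingHom (ZMod l)) (m : ZMod l) =
        ((f.eval (m : ℤ) : ℤ) : ZMod l) := by
      have := Polynomial.eval_intCast_map (Int.castRingHom (ZMod l)) f (m : ℤ)
      rw [Polynomial.eval_map] at this
      simpa using this
    rw [h1]
    intro h0
    rw [ZMod.intCast_zmod_eq_zero_iff_dvd] at h0
    have h2 := Int.natAbs_dvd_natAbs.2 h0
    have h3 := Nat.le_of_dvd (by omega) h2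
    simp only [Int.natAbs_natCast] at h3
    omega

/-- conjugated evaluation. -/
theorem Bgd.nn_eval {A : Type} [Group A] {κ : ℤ} {v x u : A} (h : Bgd κ v x u)
    (hκ : κ = 1 ∨ κ = -1) {R : Type} [CommRing R]
    (ρ : A →* Equiv.Perm R) (m m' : R) (hv : ∀ q, ρ v q = 1 + q) (hx : ∀ q, ρ x q = m * q)
    (hu : ∀ q, ρ u q = m' * q) {g : A} {k j : ℕ} {f : ℤ[X]} (hg : h.nn hκ g k j f) (q : R) :
    m ^ k * m' ^ j * ρ g q = f.eval₂ (Int.castRingHom R) m + m ^ k * m' ^ j * q := by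
  have hxn : ∀ (n : ℕ) (q : R), ρ (x ^ n) q = m ^ n * q := by
    intro n
    induction n with
    | zero => intro q; simp
    | succ n ih =>
      intro q
      rw [pow_succ', map_mul, Equiv.Perm.mul_apply, ih, hx, pow_succ', mul_assoc]
  have hun : ∀ (n : ℕ) (q : R), ρ (u ^ n) q = m' ^ n * q := by
    intro n
    induction n with
    | zero => intro q; simp
    | succ n ih =>
      intro q
      rw [pow_succ', map_mul, Equiv.Perm.mul_apply, ih, hu, pow_succ', mul_assoc]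
  have hxu : ∀ q : R, ρ (x ^ k * u ^ j) q = m ^ k * m' ^ j * q := by
    intro q
    rw [map_mul, Equiv.Perm.mul_apply, hun, hxn, mul_assoc]
  unfold Bgd.nn at hg
  have h1 : (x ^ k * u ^ j) * g = h.th hκ f * (x ^ k * u ^ j) := by
    rw [← hg]
    group
  have h2 := congrArg (fun w => ρ w q) h1
  simp only [map_mul ρ (x ^ k * u ^ j) g, map_mul ρ (h.th hκ f), Equiv.Perm.mul_apply] at h2
  rw [hxu, h.eval hκ ρ m hv hx, hxu] at h2
  exact h2

end Pool.Agent.TH88.NP
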