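import Mathlib
import Pool.Agent.TH88.NP.Grp

/-!
# Residual finiteness of `A` and closedness of `C`
-/

set_option autoImplicit false
set_option linter.unusedSectionVars false

namespace Pool.Agent.TH88.NP

open Polynomial Pool.Agent.TH88.SI

/-- `A`. -/
abbrev AA : Type := B (-1) × B 1

/-- generators of `C`. -/
def cv : AA := (bv (-1), bv 1)
/-- generators of `C`. -/
def cx : AA := (bx (-1), bx 1)

/-- `C`. -/
def CC : Subgroup AA := Subgroup.closure {cv, cx}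

theorem cv_mem : cv ∈ CC := Subgroup.subset_closure (Or.inl rfl)
theorem cx_mem : cx ∈ CC := Subgroup.subset_closure (Or.inr rfl)

theorem k1 : (-1 : ℤ) = 1 ∨ (-1 : ℤ) = -1 := Or.inr rfl
theorem k2 : (1 : ℤ) = 1 ∨ (1 : ℤ) = -1 := Or.inl rfl

/-- `θ₁`. -/
noncomputable def t1 (f : ℤ[X]) : B (-1) := (B_bgd (-1)).th k1 f
/-- `θ₂`. -/
noncomputable def t2 (f : ℤ[X]) : B 1 := (B_bgd 1).th k2 f

theorem theta_mem (f : ℤ[X]) : (t1 f, t2 f) ∈ CC := by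
  induction f using Polynomial.induction_on' with
  | add f g hf hg =>
    have : (t1 (f + g), t2 (f + g)) = (t1 f, t2 f) * (t1 g, t2 g) := by
      rw [Prod.mk_mul_mk]
      exact Prod.ext ((B_bgd (-1)).th_add k1 f g) ((B_bgd 1).th_add k2 f g)
    rw [this]
    exact CC.mul_mem hf hg
  | monomial n a =>
    have : (t1 (monomial n a), t2 (monomial n a)) = (cx ^ n * cv * (cx ^ n)⁻¹) ^ a :=
      Prod.ext ((B_bgd (-1)).th_mon k1 n a) ((B_bgd 1).th_mon k2 n a)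
    rw [this]
    exact CC.zpow_mem (CC.mul_mem (CC.mul_mem (CC.pow_mem cx_mem n) cv_mem)
      (CC.inv_mem (CC.pow_mem cx_mem n))) a

theorem rfB (κ : ℤ) (hκ : κ = 1 ∨ κ = -1) (g : B κ) (hg : g ≠ 1) :
    ∃ M : Subgroup (B κ), M.FiniteIndex ∧ g ∉ M := by
  obtain ⟨n, a, b, k, j, f, hn, rfl⟩ := (B_bgd κ).nf_all hκ (B_gen κ) g
  obtain ⟨e, ev, ex, eu⟩ := B_exp κ
  have hen : e n = 1 := (B_bgd κ).nn_triv hκ e ev hn
  have he : e (n * bx κ ^ a * bu κ ^ b) = (Multiplicative.ofAdd a, Multiplicative.ofAdd b) := by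
    rw [map_mul, map_mul, map_zpow, map_zpow, hen, ex, eu, one_mul]
    refine Prod.ext ?_ ?_
    · show (Multiplicative.ofAdd (1 : ℤ)) ^ a * (1 : Multiplicative ℤ) ^ b = _
      rw [one_zpow, mul_one, ← ofAdd_zsmul]
      simp
    · show (1 : Multiplicative ℤ) ^ a * (Multiplicative.ofAdd (1 : ℤ)) ^ b = _
      rw [one_zpow, one_mul, ← ofAdd_zsmul]
      simp
  by_cases ha : a = 0
  · by_cases hb : b = 0
    · subst ha hb
      rw [zpow_zero, mul_one, zpow_zero, mul_one] at hg ⊢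
      have hf : f ≠ 0 := by
        rintro rfl
        apply hg
        unfold Bgd.nn at hn
        rw [(B_bgd κ).th_zero] at hn
        have h1 := mul_inv_eq_one.1 hn
        exact mul_eq_left.1 h1
      obtain ⟨l, hl, m, m₁, m₂, h1, h2, h3⟩ := exists_point f hf
      obtain ⟨m', hm'⟩ : ∃ m' : (ZMod l)ˣ, (m' : ZMod l) = m + (κ : ZMod l) := by
        rcases hκ with rfl | rfl
        · exact ⟨m₂, h2⟩
        · exact ⟨m₁, h1⟩
      obtain ⟨ρ, r1, r2, r3⟩ := B_eval hκ m m' hm'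
      have h4 := (B_bgd κ).nn_eval hκ ρ (m : ZMod l) (m' : ZMod l) r1 r2 r3 hn 0
      refine ⟨ρ.ker, ?_, ?_⟩
      · exact inferInstance
      · intro hk
        rw [MonoidHom.mem_ker] at hk
        rw [hk] at h4
        apply h3
        simpa using h4.symm
    · obtain ⟨N, hN, hN2⟩ := FP.rf_of_DP DP_Z (Multiplicative.ofAdd b) (by
        intro h
        exact hb (by simpa using h))
      refine ⟨N.comap ((MonoidHom.snd _ _).comp e), fi_comap _ N hN, ?_⟩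
      rw [Subgroup.mem_comap, MonoidHom.comp_apply, he]
      exact hN2
  · obtain ⟨N, hN, hN2⟩ := FP.rf_of_DP DP_Z (Multiplicative.ofAdd a) (by
      intro h
      exact ha (by simpa using h))
    refine ⟨N.comap ((MonoidHom.fst _ _).comp e), fi_comap _ N hN, ?_⟩
    rw [Subgroup.mem_comap, MonoidHom.comp_apply, he]
    exact hN2

theorem rfA (a : AA) (ha : a ≠ 1) : ∃ M : Subgroup AA, M.FiniteIndex ∧ a ∉ M := by
  by_cases h1 : a.1 = 1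
  · have h2 : a.2 ≠ 1 := fun h2 => ha (Prod.ext h1 h2)
    obtain ⟨M, hM, hM2⟩ := rfB 1 k2 a.2 h2
    exact ⟨M.comap (MonoidHom.snd _ _), fi_comap _ M hM, hM2⟩
  · obtain ⟨M, hM, hM2⟩ := rfB (-1) k1 a.1 h1
    exact ⟨M.comap (MonoidHom.fst _ _), fi_comap _ M hM, hM2⟩

theorem sep_of_hom {a : AA} (e : AA →* Multiplicative ℤ) (hv : e cv = 1) (hx : e cx = 1)
    (ha : e a ≠ 1) : ∃ M : Subgroup AA, M.FiniteIndex ∧ CC ≤ M ∧ a ∉ M := by
  obtain ⟨N, hN, hN2⟩ := FP.rf_of_DP DP_Z _ ha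
  refine ⟨N.comap e, fi_comap _ N hN, ?_, hN2⟩
  unfold CC
  rw [Subgroup.closure_le]
  rintro c (rfl | rfl)
  · show e cv ∈ N
    rw [hv]
    exact N.one_mem
  · show e cx ∈ N
    rw [hx]
    exact N.one_mem

theorem conj_lem {A : Type} [Group A] {κ : ℤ} {v x u : A} (h : Bgd κ v x u)
    (hκ : κ = 1 ∨ κ = -1) {n : A} {k j : ℕ} {f : ℤ[X]}
    (hn : h.nn hκ n k j ((X + C κ) ^ j * f)) : n = (x ^ k)⁻¹ * h.th hκ f * x ^ k := by
  unfold Bgd.nn at hn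
  rw [← h.th_uk] at hn
  have hc : Commute (x ^ k) (u ^ j) := Commute.pow_pow h.h1 k j
  have e : x ^ k * u ^ j = u ^ j * x ^ k := hc.eq
  rw [e] at hn
  have : n = (u ^ j * x ^ k)⁻¹ * (u ^ j * x ^ k * n * (u ^ j * x ^ k)⁻¹) * (u ^ j * x ^ k) := by
    group
  rw [this, hn]
  group

theorem closed (a : AA) (ha : a ∉ CC) : ∃ M : Subgroup AA, M.FiniteIndex ∧ CC ≤ M ∧ a ∉ M := by
  obtain ⟨g₁, g₂⟩ := a
  obtain ⟨n₁, a₁, b₁, i₁, j₁, f₁, hn₁, rfl⟩ := (B_bgd (-1)).nf_all k1 (B_gen (-1)) g₁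
  obtain ⟨n₂, a₂, b₂, i₂, j₂, f₂, hn₂, rfl⟩ := (B_bgd 1).nf_all k2 (B_gen 1) g₂
  obtain ⟨e₁, ev₁, ex₁, eu₁⟩ := B_exp (-1)
  obtain ⟨e₂, ev₂, ex₂, eu₂⟩ := B_exp 1
  have hen₁ : e₁ n₁ = 1 := (B_bgd (-1)).nn_triv k1 e₁ ev₁ hn₁
  have hen₂ : e₂ n₂ = 1 := (B_bgd 1).nn_triv k2 e₂ ev₂ hn₂
  have he₁ : e₁ (n₁ * bx (-1) ^ a₁ * bu (-1) ^ b₁) =
      (Multiplicative.ofAdd a₁, Multiplicative.ofAdd b₁) := by
    rw [map_mul, map_mul, map_zpow, map_zpow, hen₁, ex₁, eu₁, one_mul]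
    refine Prod.ext ?_ ?_
    · show (Multiplicative.ofAdd (1 : ℤ)) ^ a₁ * (1 : Multiplicative ℤ) ^ b₁ = _
      rw [one_zpow, mul_one, ← ofAdd_zsmul]
      simp
    · show (1 : Multiplicative ℤ) ^ a₁ * (Multiplicative.ofAdd (1 : ℤ)) ^ b₁ = _
      rw [one_zpow, one_mul, ← ofAdd_zsmul]
      simp
  have he₂ : e₂ (n₂ * bx 1 ^ a₂ * bu 1 ^ b₂) =
      (Multiplicative.ofAdd a₂, Multiplicative.ofAdd b₂) := by
    rw [map_mul, map_mul, map_zpow, map_zpow, hen₂, ex₂, eu₂, one_mul]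
    refine Prod.ext ?_ ?_
    · show (Multiplicative.ofAdd (1 : ℤ)) ^ a₂ * (1 : Multiplicative ℤ) ^ b₂ = _
      rw [one_zpow, mul_one, ← ofAdd_zsmul]
      simp
    · show (1 : Multiplicative ℤ) ^ a₂ * (Multiplicative.ofAdd (1 : ℤ)) ^ b₂ = _
      rw [one_zpow, one_mul, ← ofAdd_zsmul]
      simp
  by_cases hb₁ : b₁ = 0
  swap
  · refine sep_of_hom ((MonoidHom.snd _ _).comp (e₁.comp (MonoidHom.fst _ _))) ?_ ?_ ?_
    · show (e₁ (bv (-1))).2 = 1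
      rw [ev₁]
      rfl
    · show (e₁ (bx (-1))).2 = 1
      rw [ex₁]
    · show (e₁ (n₁ * bx (-1) ^ a₁ * bu (-1) ^ b₁)).2 ≠ 1
      rw [he₁]
      intro h
      exact hb₁ (by simpa using h)
  by_cases hb₂ : b₂ = 0
  swap
  · refine sep_of_hom ((MonoidHom.snd _ _).comp (e₂.comp (MonoidHom.snd _ _))) ?_ ?_ ?_
    · show (e₂ (bv 1)).2 = 1
      rw [ev₂]
      rfl
    · show (e₂ (bx 1)).2 = 1
      rw [ex₂]
    · show (e₂ (n₂ * bx 1 ^ a₂ * bu 1 ^ b₂)).2 ≠ 1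
      rw [he₂]
      intro h
      exact hb₂ (by simpa using h)
  by_cases haa : a₁ = a₂
  swap
  · refine sep_of_hom ((MonoidHom.fst _ _).comp (e₁.comp (MonoidHom.fst _ _)) *
      ((MonoidHom.fst _ _).comp (e₂.comp (MonoidHom.snd _ _)))⁻¹) ?_ ?_ ?_
    · show (e₁ (bv (-1))).1 * ((e₂ (bv 1)).1)⁻¹ = 1
      rw [ev₁, ev₂]
      simp
    · show (e₁ (bx (-1))).1 * ((e₂ (bx 1)).1)⁻¹ = 1
      rw [ex₁, ex₂]
      simp
    · show (e₁ (n₁ * bx (-1) ^ a₁ * bu (-1) ^ b₁)).1 * ((e₂ (n₂ * bx 1 ^ a₂ * bu 1 ^ b₂)).1)⁻¹ ≠ 1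
      rw [he₁, he₂]
      intro h
      have h2 := mul_inv_eq_one.1 h
      exact haa (by simpa using h2)
  subst hb₁ hb₂ haa
  simp only [zpow_zero, mul_one] at ha ⊢
  have hfac : ((n₁ * bx (-1) ^ a₁, n₂ * bx 1 ^ a₁) : AA) = (n₁, n₂) * cx ^ a₁ := rfl
  rw [hfac] at ha ⊢
  have ha' : ((n₁, n₂) : AA) ∉ CC := fun h => ha (CC.mul_mem h (CC.zpow_mem cx_mem _))
  suffices hs : ∃ M : Subgroup AA, M.FiniteIndex ∧ CC ≤ M ∧ ((n₁, n₂) : AA) ∉ M by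
    obtain ⟨M, hM, hM2, hM3⟩ := hs
    refine ⟨M, hM, hM2, fun h => hM3 ?_⟩
    have := M.mul_mem h (M.inv_mem (hM2 (CC.zpow_mem cx_mem a₁)))
    rwa [mul_inv_cancel_right] at this
  have r₁ := (B_bgd (-1)).nn_raise k1 hn₁ i₂ j₂
  have r₂ := (B_bgd 1).nn_raise k2 hn₂ i₁ j₁
  rw [add_comm i₂, add_comm j₂] at r₂
  generalize hk : i₁ + i₂ = k at r₁ r₂
  generalize hj : j₁ + j₂ = j at r₁ r₂
  generalize X ^ i₂ * ((X + C (-1)) ^ j₂ * f₁) = F₁ at r₁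
  generalize X ^ i₁ * ((X + C 1) ^ j₁ * f₂) = F₂ at r₂
  by_cases hD : F₁ * (X + C 1) ^ j - F₂ * (X + C (-1)) ^ j = 0
  · exfalso
    apply ha'
    have hD' : F₁ * (X + C 1) ^ j = F₂ * (X + C (-1)) ^ j := sub_eq_zero.1 hD
    have hp : Prime (X + C (-1 : ℤ)) := by
      have := Polynomial.prime_X_sub_C (1 : ℤ)
      rwa [sub_eq_add_neg, ← C_neg] at this
    have hnd : ¬ (X + C (-1 : ℤ)) ∣ (X + C (1 : ℤ)) ^ j := by
      intro h
      have h2 := hp.dvd_of_dvd_pow h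
      obtain ⟨q, hq⟩ := h2
      have h3 := congrArg (Polynomial.eval (1 : ℤ)) hq
      simp at h3
    have hdvd : (X + C (-1 : ℤ)) ^ j ∣ F₁ := by
      refine hp.pow_dvd_of_dvd_mul_right j hnd ?_
      rw [hD']
      exact Dvd.intro_left _ rfl
    obtain ⟨q, rfl⟩ := hdvd
    have hne : (X + C (-1 : ℤ)) ^ j ≠ 0 := pow_ne_zero _ hp.ne_zero
    have hF₂ : F₂ = (X + C 1) ^ j * q := by
      apply mul_right_cancel₀ hne
      rw [← hD']
      ring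
    subst hF₂
    have q₁ := conj_lem (B_bgd (-1)) k1 r₁
    have q₂ := conj_lem (B_bgd 1) k2 r₂
    have hm : ((n₁, n₂) : AA) = (cx ^ k)⁻¹ * (t1 q, t2 q) * cx ^ k := Prod.ext q₁ q₂
    rw [hm]
    exact CC.mul_mem (CC.mul_mem (CC.inv_mem (CC.pow_mem cx_mem k)) (theta_mem q))
      (CC.pow_mem cx_mem k)
  · obtain ⟨l, hl, m, m₁, m₂, h1, h2, h3⟩ := exists_point _ hD
    obtain ⟨ρ₁, p1, p2, p3⟩ := B_eval k1 m m₁ h1
    obtain ⟨ρ₂, q1, q2, q3⟩ := B_eval k2 m m₂ h2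
    refine ⟨(ρ₁.comp (MonoidHom.fst _ _)).eqLocus (ρ₂.comp (MonoidHom.snd _ _)), ?_, ?_, ?_⟩
    · have hle : (ρ₁.comp (MonoidHom.fst (B (-1)) (B 1))).ker ⊓
          (ρ₂.comp (MonoidHom.snd (B (-1)) (B 1))).ker ≤
          (ρ₁.comp (MonoidHom.fst _ _)).eqLocus (ρ₂.comp (MonoidHom.snd _ _)) := by
        intro c hc
        have c1 : ρ₁.comp (MonoidHom.fst _ _) c = 1 := (Subgroup.mem_inf.1 hc).1
        have c2 : ρ₂.comp (MonoidHom.snd _ _) c = 1 := (Subgroup.mem_inf.1 hc).2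
        show ρ₁.comp (MonoidHom.fst _ _) c = ρ₂.comp (MonoidHom.snd _ _) c
        rw [c1, c2]
      exact Subgroup.finiteIndex_of_le hle
    · unfold CC
      rw [Subgroup.closure_le]
      rintro c (rfl | rfl)
      · show ρ₁ (bv (-1)) = ρ₂ (bv 1)
        ext q
        rw [p1, q1]
      · show ρ₁ (bx (-1)) = ρ₂ (bx 1)
        ext q
        rw [p2, q2]
    · intro hmem
      have hmem' : ρ₁ n₁ = ρ₂ n₂ := hmem
      have s₁ := (B_bgd (-1)).nn_eval k1 ρ₁ (m : ZMod l) (m₁ : ZMod l) p1 p2 p3 r₁ 0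
      have s₂ := (B_bgd 1).nn_eval k2 ρ₂ (m : ZMod l) (m₂ : ZMod l) q1 q2 q3 r₂ 0
      rw [hmem'] at s₁
      apply h3
      rw [eval₂_sub, eval₂_mul, eval₂_mul, eval₂_pow, eval₂_pow, eval₂_add, eval₂_add, eval₂_X,
        eval₂_C, eval₂_C]
      have h1' : (m : ZMod l) + (Int.castRingHom (ZMod l)) (-1) = m₁ := by
        rw [h1]
        rfl
      have h2' : (m : ZMod l) + (Int.castRingHom (ZMod l)) 1 = m₂ := by
        rw [h2]
        rfl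
      rw [h1', h2']
      linear_combination (m₁ : ZMod l) ^ j * s₂ - (m₂ : ZMod l) ^ j * s₁

end Pool.Agent.TH88.NP
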