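import Mathlib
import Pool.Agent.TH88.NP.Sep

/-!
# The group `GG = F(A / C) ⋊ A`: residual finiteness and presentation
-/

set_option autoImplicit false
set_option linter.unusedSectionVars false

namespace Pool.Agent.TH88.NP

open Pool.Agent.TH88.SI

/-- permutations act on free groups. -/
def pa (Y : Type) : Equiv.Perm Y →* MulAut (FreeGroup Y) where
  toFun σ := FreeGroup.freeGroupCongr σ
  map_one' := by
    ext w
    show FreeGroup.map (fun y => y) w = w
    exact FreeGroup.map.id' w
  map_mul' σ τ := by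
    ext w
    show FreeGroup.map (fun y => σ (τ y)) w = FreeGroup.map σ (FreeGroup.map τ w)
    rw [FreeGroup.map.comp]
    rfl

theorem pa_of {Y : Type} (σ : Equiv.Perm Y) (y : Y) :
    pa Y σ (FreeGroup.of y) = FreeGroup.of (σ y) := by
  show FreeGroup.map σ (FreeGroup.of y) = _
  simp

theorem pa_map {Y Z : Type} (σ : Equiv.Perm Y) (τ : Equiv.Perm Z) (f : Y → Z)
    (h : ∀ y, f (σ y) = τ (f y)) (w : FreeGroup Y) :
    FreeGroup.map f (pa Y σ w) = pa Z τ (FreeGroup.map f w) := by
  show FreeGroup.map f (FreeGroup.map σ w) = FreeGroup.map τ (FreeGroup.map f w)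
  rw [FreeGroup.map.comp, FreeGroup.map.comp]
  congr 2
  funext y
  exact h y

/-- the action of `AA` on the free group. -/
def ph : AA →* MulAut (FreeGroup (AA ⧸ CC)) :=
  (pa (AA ⧸ CC)).comp (MulAction.toPermHom AA (AA ⧸ CC))

/-- the group. -/
abbrev GG : Type := FreeGroup (AA ⧸ CC) ⋊[ph] AA

theorem DP_Y (Y : Type) [Finite Y] : DP (FreeGroup Y ⋊[pa Y] Equiv.Perm Y) := by
  have hfi : Finite ((FreeGroup Y ⋊[pa Y] Equiv.Perm Y) ⧸
      (SemidirectProduct.inl : FreeGroup Y →* FreeGroup Y ⋊[pa Y] Equiv.Perm Y).range) := by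
    rw [SemidirectProduct.range_inl_eq_ker_rightHom]
    infer_instance
  exact DP_fi _ (DP_equiv (MonoidHom.ofInjective SemidirectProduct.inl_injective) (DP_free Y))

theorem map_ne_one {Y Z : Type} (f : Y → Z) (n : FreeGroup Y) (hn : n ≠ 1) (S : Set Y)
    (hS : n ∈ Subgroup.closure (FreeGroup.of '' S)) (hinj : Set.InjOn f S) :
    FreeGroup.map f n ≠ 1 := by
  have h2 : Subgroup.closure (FreeGroup.of '' S) ≤
      (FreeGroup.map (Subtype.val : S → Y)).range := by
    rw [Subgroup.closure_le]
    rintro _ ⟨b, hb, rfl⟩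
    exact ⟨FreeGroup.of ⟨b, hb⟩, by simp⟩
  obtain ⟨n', rfl⟩ := h2 hS
  intro h
  rw [FreeGroup.map.comp] at h
  have h3 : n' = 1 := by
    have hi : Function.Injective (f ∘ (Subtype.val : S → Y)) := by
      intro a b hab
      exact Subtype.ext (hinj a.2 b.2 hab)
    apply FreeGroup.map_injective hi
    rw [h, map_one]
  rw [h3, map_one] at hn
  exact hn rfl

theorem rfG (g : GG) (hg : g ≠ 1) : ∃ M : Subgroup GG, M.FiniteIndex ∧ g ∉ M := by
  classical
  by_cases h1 : g.right = 1
  · have h2 : g.left ≠ 1 := fun h2 => hg (SemidirectProduct.ext h2 h1)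
    obtain ⟨S, hS, hnS⟩ := free_support ({g.left} : Set (FreeGroup (AA ⧸ CC))) (Set.finite_singleton _)
    have hnS' := hnS rfl
    let I : Type := {pq : S × S // pq.1 ≠ pq.2}
    have hSf : Finite S := hS
    have hsep : ∀ i : I, ∃ M : Subgroup AA, M.FiniteIndex ∧ CC ≤ M ∧
        (Quotient.out i.1.1.1)⁻¹ * (Quotient.out i.1.2.1) ∉ M := by
      intro i
      refine closed _ fun hm => i.2 ?_
      apply Subtype.ext
      have h3 := (QuotientGroup.eq (s := CC)).2 hm
      rw [← Quotient.out_eq i.1.1.1, ← Quotient.out_eq i.1.2.1]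
      exact h3
    choose M hM1 hM2 hM3 using hsep
    have hI : Finite I := Subtype.finite
    let K : Subgroup AA := ⨅ i, M i
    have hK : K.FiniteIndex := Subgroup.finiteIndex_iInf hM1
    have hCK : CC ≤ K := le_iInf hM2
    have hY : Finite (AA ⧸ K) := inferInstance
    let q : AA ⧸ CC → AA ⧸ K := Subgroup.quotientMapOfLE hCK
    have hq : ∀ (a : AA) (y : AA ⧸ CC), q (a • y) = a • q y := by
      intro a y
      induction y using QuotientGroup.induction_on
      rfl
    have hinj : Set.InjOn q S := by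
      intro a ha b hb hab
      by_contra hne
      let i : I := ⟨(⟨a, ha⟩, ⟨b, hb⟩), fun h => hne (congrArg Subtype.val h)⟩
      apply hM3 i
      have h4 : q (QuotientGroup.mk (Quotient.out a)) = q (QuotientGroup.mk (Quotient.out b)) := by
        have e1 : (QuotientGroup.mk (Quotient.out a) : AA ⧸ CC) = a := Quotient.out_eq a
        have e2 : (QuotientGroup.mk (Quotient.out b) : AA ⧸ CC) = b := Quotient.out_eq b
        rw [e1, e2]
        exact hab
      have h5 : (QuotientGroup.mk (Quotient.out a) : AA ⧸ K) = QuotientGroup.mk (Quotient.out b) := h4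
      have h6 := QuotientGroup.eq.1 h5
      exact (Subgroup.mem_iInf.1 h6) i
    let Φ : GG →* FreeGroup (AA ⧸ K) ⋊[pa (AA ⧸ K)] Equiv.Perm (AA ⧸ K) :=
      SemidirectProduct.map (FreeGroup.map q) (MulAction.toPermHom AA (AA ⧸ K)) (by
        intro a
        refine MonoidHom.ext fun w => ?_
        exact pa_map _ _ q (fun y => hq a y) w)
    have hΦ : Φ g ≠ 1 := by
      intro h
      have h7 : (Φ g).left = 1 := by rw [h]; rfl
      exact map_ne_one q g.left h2 S hnS' hinj h7
    obtain ⟨N, hN, hN2⟩ := FP.rf_of_DP (DP_Y (AA ⧸ K)) _ hΦ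
    exact ⟨N.comap Φ, fi_comap _ N hN, hN2⟩
  · obtain ⟨M, hM, hM2⟩ := rfA g.right h1
    exact ⟨M.comap SemidirectProduct.rightHom, fi_comap _ M hM, hM2⟩

/-- the stable letter. -/
def tt : GG := SemidirectProduct.inl (FreeGroup.of (QuotientGroup.mk 1))

/-- the generators. -/
def gen : Fin 7 → GG :=
  ![SemidirectProduct.inr (bv (-1), 1), SemidirectProduct.inr (bx (-1), 1),
    SemidirectProduct.inr (bu (-1), 1), SemidirectProduct.inr (1, bv 1),
    SemidirectProduct.inr (1, bx 1), SemidirectProduct.inr (1, bu 1), tt]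

/-- the relations in a group. -/
structure Rel7 {W : Type} [Group W] (w : Fin 7 → W) (z : W) : Prop where
  b1 : Bgd (-1) (w 0) (w 1) (w 2)
  b2 : Bgd 1 (w 3) (w 4) (w 5)
  c03 : w 0 * w 3 = w 3 * w 0
  c04 : w 0 * w 4 = w 4 * w 0
  c05 : w 0 * w 5 = w 5 * w 0
  c13 : w 1 * w 3 = w 3 * w 1
  c14 : w 1 * w 4 = w 4 * w 1
  c15 : w 1 * w 5 = w 5 * w 1
  c23 : w 2 * w 3 = w 3 * w 2
  c24 : w 2 * w 4 = w 4 * w 2
  c25 : w 2 * w 5 = w 5 * w 2
  tv : w 6 * (w 0 * w 3) = (w 0 * w 3) * w 6 * z
  tx : w 6 * (w 1 * w 4) = (w 1 * w 4) * w 6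

theorem liftA {W : Type} [Group W] {w : Fin 7 → W} {z : W} (h : Rel7 w z) :
    ∃ α : AA →* W, α (bv (-1), 1) = w 0 ∧ α (bx (-1), 1) = w 1 ∧ α (bu (-1), 1) = w 2 ∧
      α (1, bv 1) = w 3 ∧ α (1, bx 1) = w 4 ∧ α (1, bu 1) = w 5 := by
  obtain ⟨φ₁, a0, a1, a2⟩ := B_lift h.b1
  obtain ⟨φ₂, a3, a4, a5⟩ := B_lift h.b2
  have hcomm : ∀ m n, Commute (φ₁ m) (φ₂ n) := by
    have hstep : ∀ g : W, Commute g (w 3) → Commute g (w 4) → Commute g (w 5) →
        ∀ n, Commute g (φ₂ n) := by
      intro g g3 g4 g5 n
      have hn : n ∈ Subgroup.closure ({bv 1, bx 1, bu 1} : Set (B 1)) := by rw [B_gen]; trivial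
      induction hn using Subgroup.closure_induction with
      | mem s hs =>
        rcases hs with rfl | rfl | rfl
        · rw [a3]; exact g3
        · rw [a4]; exact g4
        · rw [a5]; exact g5
      | one => rw [map_one]; exact Commute.one_right _
      | mul a b _ _ iha ihb => rw [map_mul]; exact iha.mul_right ihb
      | inv a _ iha => rw [map_inv]; exact iha.inv_right
    intro m n
    have hm : m ∈ Subgroup.closure ({bv (-1), bx (-1), bu (-1)} : Set (B (-1))) := by
      rw [B_gen]; trivial
    induction hm using Subgroup.closure_induction with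
    | mem s hs =>
      rcases hs with rfl | rfl | rfl
      · rw [a0]; exact hstep _ h.c03 h.c04 h.c05 n
      · rw [a1]; exact hstep _ h.c13 h.c14 h.c15 n
      · rw [a2]; exact hstep _ h.c23 h.c24 h.c25 n
    | one => rw [map_one]; exact Commute.one_left _
    | mul a b _ _ iha ihb => rw [map_mul]; exact iha.mul_left ihb
    | inv a _ iha => rw [map_inv]; exact iha.inv_left
  refine ⟨MonoidHom.noncommCoprod φ₁ φ₂ hcomm, ?_, ?_, ?_, ?_, ?_, ?_⟩ <;>
    simp [MonoidHom.noncommCoprod_apply, a0, a1, a2, a3, a4, a5]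

theorem liftG {W : Type} [Group W] {w : Fin 7 → W} (h : Rel7 w 1) :
    ∃ Ψ : GG →* W, ∀ i, Ψ (gen i) = w i := by
  obtain ⟨α, a0, a1, a2, a3, a4, a5⟩ := liftA h
  have hcv : α cv = w 0 * w 3 := by
    have : cv = (bv (-1), 1) * (1, bv 1) := by
      unfold cv
      simp
    rw [this, map_mul, a0, a3]
  have hcx : α cx = w 1 * w 4 := by
    have : cx = (bx (-1), 1) * (1, bx 1) := by
      unfold cx
      simp
    rw [this, map_mul, a1, a4]
  have hC : ∀ c ∈ CC, Commute (w 6) (α c) := by
    intro c hc
    unfold CC at hc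
    induction hc using Subgroup.closure_induction with
    | mem s hs =>
      rcases hs with rfl | rfl
      · rw [hcv]
        have := h.tv
        rw [mul_one] at this
        exact this
      · rw [hcx]; exact h.tx
    | one => rw [map_one]; exact Commute.one_right _
    | mul a b _ _ iha ihb => rw [map_mul]; exact iha.mul_right ihb
    | inv a _ iha => rw [map_inv]; exact iha.inv_right
  let F : FreeGroup (AA ⧸ CC) →* W :=
    FreeGroup.lift (fun y => α (Quotient.out y) * w 6 * (α (Quotient.out y))⁻¹)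
  have hF : ∀ a : AA, F (FreeGroup.of (QuotientGroup.mk a)) = α a * w 6 * (α a)⁻¹ := by
    intro a
    show FreeGroup.lift _ (FreeGroup.of _) = _
    rw [FreeGroup.lift_apply_of]
    have hm : a⁻¹ * Quotient.out (QuotientGroup.mk a : AA ⧸ CC) ∈ CC := by
      have e1 : (QuotientGroup.mk (Quotient.out (QuotientGroup.mk a : AA ⧸ CC)) : AA ⧸ CC) =
        QuotientGroup.mk a := Quotient.out_eq _
      exact QuotientGroup.eq.1 e1.symm
    have hcm := hC _ hm
    rw [map_mul, map_inv] at hcm
    have hcm' : w 6 * ((α a)⁻¹ * α (Quotient.out (QuotientGroup.mk a : AA ⧸ CC))) =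
      ((α a)⁻¹ * α (Quotient.out (QuotientGroup.mk a : AA ⧸ CC))) * w 6 := hcm
    generalize α (Quotient.out (QuotientGroup.mk a : AA ⧸ CC)) = b at hcm' ⊢
    have e2 : b * w 6 = α a * w 6 * (α a)⁻¹ * b := by
      calc b * w 6 = α a * ((α a)⁻¹ * b * w 6) := by group
        _ = α a * (w 6 * ((α a)⁻¹ * b)) := by rw [hcm']
        _ = _ := by group
    rw [e2]
    group
  let Ψ : GG →* W := SemidirectProduct.lift F α (by
    intro a
    refine FreeGroup.ext_hom _ _ fun y => ?_
    induction y using QuotientGroup.induction_on with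
    | H b =>
      show F (pa _ _ (FreeGroup.of (QuotientGroup.mk b))) = α a * F (FreeGroup.of (QuotientGroup.mk b)) * (α a)⁻¹
      rw [pa_of]
      show F (FreeGroup.of (QuotientGroup.mk (a * b))) = _
      rw [hF, hF, map_mul]
      group)
  refine ⟨Ψ, ?_⟩
  have hr : ∀ a, Ψ (SemidirectProduct.inr a) = α a := fun a => SemidirectProduct.lift_inr _ _ _ _
  intro i
  fin_cases i
  · exact (hr _).trans a0
  · exact (hr _).trans a1
  · exact (hr _).trans a2
  · exact (hr _).trans a3
  · exact (hr _).trans a4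
  · exact (hr _).trans a5
  · show Ψ (SemidirectProduct.inl _) = w 6
    have : Ψ (SemidirectProduct.inl (FreeGroup.of (QuotientGroup.mk 1))) =
      F (FreeGroup.of (QuotientGroup.mk 1)) := SemidirectProduct.lift_inl _ _ _ _
    rw [this, hF, map_one]
    simp

theorem gen_top : Subgroup.closure (Set.range gen) = (⊤ : Subgroup GG) := by
  rw [eq_top_iff]
  let K : Subgroup GG := Subgroup.closure (Set.range gen)
  show ⊤ ≤ K
  have hg : ∀ i, gen i ∈ K := fun i => Subgroup.subset_closure ⟨i, rfl⟩
  have h1 : ∀ b : B (-1), (SemidirectProduct.inr ((b, 1) : AA) : GG) ∈ K := by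
    intro b
    have hm : b ∈ Subgroup.closure ({bv (-1), bx (-1), bu (-1)} : Set (B (-1))) := by
      rw [B_gen]; trivial
    induction hm using Subgroup.closure_induction with
    | mem s hs =>
      rcases hs with rfl | rfl | rfl
      · exact hg 0
      · exact hg 1
      · exact hg 2
    | one => exact K.one_mem
    | mul a b _ _ iha ihb =>
      have : (SemidirectProduct.inr ((a * b, 1) : AA) : GG) =
          SemidirectProduct.inr ((a, 1) : AA) * SemidirectProduct.inr ((b, 1) : AA) := by
        rw [← map_mul]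
        simp
      rw [this]
      exact K.mul_mem iha ihb
    | inv a _ iha =>
      have : (SemidirectProduct.inr ((a⁻¹, 1) : AA) : GG) =
          (SemidirectProduct.inr ((a, 1) : AA))⁻¹ := by
        rw [← map_inv]
        simp
      rw [this]
      exact K.inv_mem iha
  have h2 : ∀ b : B 1, (SemidirectProduct.inr ((1, b) : AA) : GG) ∈ K := by
    intro b
    have hm : b ∈ Subgroup.closure ({bv 1, bx 1, bu 1} : Set (B 1)) := by
      rw [B_gen]; trivial
    induction hm using Subgroup.closure_induction with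
    | mem s hs =>
      rcases hs with rfl | rfl | rfl
      · exact hg 3
      · exact hg 4
      · exact hg 5
    | one => exact K.one_mem
    | mul a b _ _ iha ihb =>
      have : (SemidirectProduct.inr ((1, a * b) : AA) : GG) =
          SemidirectProduct.inr ((1, a) : AA) * SemidirectProduct.inr ((1, b) : AA) := by
        rw [← map_mul]
        simp
      rw [this]
      exact K.mul_mem iha ihb
    | inv a _ iha =>
      have : (SemidirectProduct.inr ((1, a⁻¹) : AA) : GG) =
          (SemidirectProduct.inr ((1, a) : AA))⁻¹ := by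
        rw [← map_inv]
        simp
      rw [this]
      exact K.inv_mem iha
  have h3 : ∀ a : AA, (SemidirectProduct.inr a : GG) ∈ K := by
    rintro ⟨a, b⟩
    have : (SemidirectProduct.inr ((a, b) : AA) : GG) =
        SemidirectProduct.inr ((a, 1) : AA) * SemidirectProduct.inr ((1, b) : AA) := by
      rw [← map_mul]
      simp
    rw [this]
    exact K.mul_mem (h1 a) (h2 b)
  have h4 : ∀ w : FreeGroup (AA ⧸ CC), (SemidirectProduct.inl w : GG) ∈ K := by
    intro w
    induction w using FreeGroup.induction_on with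
    | C1 => exact K.one_mem
    | of y =>
      induction y using QuotientGroup.induction_on with
      | H a =>
        have e : (SemidirectProduct.inl (ph a (FreeGroup.of (QuotientGroup.mk 1))) : GG) =
          SemidirectProduct.inr a * SemidirectProduct.inl (FreeGroup.of (QuotientGroup.mk 1)) *
            SemidirectProduct.inr a⁻¹ := SemidirectProduct.inl_aut a _
        have e2 : ph a (FreeGroup.of (QuotientGroup.mk 1)) = FreeGroup.of (QuotientGroup.mk a) := by
          show pa _ _ _ = _
          rw [pa_of]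
          show FreeGroup.of (QuotientGroup.mk (a * 1)) = _
          rw [mul_one]
        rw [e2] at e
        show (SemidirectProduct.inl (FreeGroup.of (QuotientGroup.mk a)) : GG) ∈ K
        rw [e]
        exact K.mul_mem (K.mul_mem (h3 a) (hg 6)) (h3 _)
    | inv_of y ih =>
      rw [map_inv]
      exact K.inv_mem ih
    | mul x y hx hy =>
      rw [map_mul]
      exact K.mul_mem hx hy
  intro g _
  rw [← SemidirectProduct.inl_left_mul_inr_right g]
  exact K.mul_mem (h4 _) (h3 _)

theorem gen_rel : Rel7 gen 1 := by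
  have hB1 : Bgd (-1) (gen 0) (gen 1) (gen 2) := by
    have h := B_bgd (-1)
    let j : B (-1) →* GG := (SemidirectProduct.inr).comp (MonoidHom.inl (B (-1)) (B 1))
    have e1 := congrArg j h.h1
    have e2 := congrArg j h.h2
    have e3 := congrArg j h.h3
    simp only [map_mul, map_inv, map_zpow] at e1 e2 e3
    exact ⟨e1, e2, e3⟩
  have hB2 : Bgd 1 (gen 3) (gen 4) (gen 5) := by
    have h := B_bgd 1
    let j : B 1 →* GG := (SemidirectProduct.inr).comp (MonoidHom.inr (B (-1)) (B 1))
    have e1 := congrArg j h.h1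
    have e2 := congrArg j h.h2
    have e3 := congrArg j h.h3
    simp only [map_mul, map_inv, map_zpow] at e1 e2 e3
    exact ⟨e1, e2, e3⟩
  have hc : ∀ (a : B (-1)) (b : B 1), (SemidirectProduct.inr ((a, 1) : AA) : GG) *
      SemidirectProduct.inr ((1, b) : AA) =
      SemidirectProduct.inr ((1, b) : AA) * SemidirectProduct.inr ((a, 1) : AA) := by
    intro a b
    rw [← map_mul, ← map_mul]
    simp
  have ht : ∀ c ∈ CC, tt * SemidirectProduct.inr c = SemidirectProduct.inr c * tt := by
    intro c hcC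
    have e : (SemidirectProduct.inl (ph c (FreeGroup.of (QuotientGroup.mk 1))) : GG) =
      SemidirectProduct.inr c * SemidirectProduct.inl (FreeGroup.of (QuotientGroup.mk 1)) *
        SemidirectProduct.inr c⁻¹ := SemidirectProduct.inl_aut c _
    have e2 : ph c (FreeGroup.of (QuotientGroup.mk 1)) = FreeGroup.of (QuotientGroup.mk 1) := by
      show pa _ _ _ = _
      rw [pa_of]
      show FreeGroup.of (QuotientGroup.mk (c * 1)) = _
      rw [mul_one]
      congr 1
      refine QuotientGroup.eq.2 ?_
      rw [mul_one]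
      exact CC.inv_mem hcC
    rw [e2, map_inv] at e
    have e3 : tt = SemidirectProduct.inr c * tt * (SemidirectProduct.inr c)⁻¹ := e
    conv_lhs => rw [e3]
    group
  refine ⟨hB1, hB2, hc _ _, hc _ _, hc _ _, hc _ _, hc _ _, hc _ _, hc _ _, hc _ _, hc _ _, ?_, ?_⟩
  · have e : gen 0 * gen 3 = SemidirectProduct.inr cv := by
      show SemidirectProduct.inr ((bv (-1), 1) : AA) * SemidirectProduct.inr ((1, bv 1) : AA) = _
      rw [← map_mul]
      simp [cv]
    rw [e, mul_one]
    exact ht cv cv_mem
  · have e : gen 1 * gen 4 = SemidirectProduct.inr cx := by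
      show SemidirectProduct.inr ((bx (-1), 1) : AA) * SemidirectProduct.inr ((1, bx 1) : AA) = _
      rw [← map_mul]
      simp [cx]
    rw [e]
    exact ht cx cx_mem

end Pool.Agent.TH88.NP
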