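import Mathlib
import Pool.Agent.TH88.NP.GG

/-!
# The subshift
-/

set_option autoImplicit false
set_option linter.unusedSectionVars false

namespace Pool.Agent.TH88.NP

open Pool.Agent.TH88.SI

/-- alphabet. -/
abbrev Al : Type := Fin 7 → ZMod 2

/-- the lifts of the generators over a `G`-set `Y` with labels `x`. -/
def sg {Y : Type} (p : Fin 7 → Equiv.Perm Y) (x : Y → Al) (i : Fin 7) :
    Equiv.Perm (Y × ZMod 2) where
  toFun q := (p i q.1, q.2 + x q.1 i)
  invFun q := ((p i).symm q.1, q.2 - x ((p i).symm q.1) i)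
  left_inv q := by
    ext
    · show (p i).symm (p i q.1) = q.1
      simp
    · show q.2 + x q.1 i - x ((p i).symm (p i q.1)) i = q.2
      simp
  right_inv q := by
    ext
    · show p i ((p i).symm q.1) = q.1
      simp
    · show q.2 - x ((p i).symm q.1) i + x ((p i).symm q.1) i = q.2
      simp

/-- the shift by `e`. -/
def zt (Y : Type) (e : ZMod 2) : Equiv.Perm (Y × ZMod 2) where
  toFun q := (q.1, q.2 + e)
  invFun q := (q.1, q.2 - e)
  left_inv q := by simp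
  right_inv q := by simp

/-- the homomorphism. -/
def Ph {Y : Type} (p : Fin 7 → Equiv.Perm Y) (x : Y → Al) :
    FreeGroup (Fin 7) →* Equiv.Perm (Y × ZMod 2) := FreeGroup.lift (sg p x)

/-- the action. -/
def ac {Y : Type} (p : Fin 7 → Equiv.Perm Y) : FreeGroup (Fin 7) →* Equiv.Perm Y :=
  FreeGroup.lift p

/-- holonomy. -/
def hol {Y : Type} (p : Fin 7 → Equiv.Perm Y) (x : Y → Al) (w : FreeGroup (Fin 7)) (y : Y) :
    ZMod 2 := (Ph p x w (y, 0)).2

theorem Ph_eq {Y : Type} (p : Fin 7 → Equiv.Perm Y) (x : Y → Al) (w : FreeGroup (Fin 7)) :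
    ∀ (y : Y) (e : ZMod 2), Ph p x w (y, e) = (ac p w y, e + hol p x w y) := by
  have main : ∀ w : FreeGroup (Fin 7), ∀ (y : Y) (e : ZMod 2),
      Ph p x w (y, e) = (ac p w y, e + (Ph p x w (y, 0)).2) := by
    intro w
    induction w using FreeGroup.induction_on with
    | C1 => intro y e; simp
    | of i =>
      intro y e
      have h1 : Ph p x (FreeGroup.of i) = sg p x i := FreeGroup.lift_apply_of
      have h2 : ac p (FreeGroup.of i) = p i := FreeGroup.lift_apply_of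
      rw [h1, h2]
      show (p i y, e + x y i) = (p i y, e + (0 + x y i))
      rw [zero_add]
    | inv_of i _ =>
      intro y e
      have h1 : Ph p x (FreeGroup.of i)⁻¹ = (sg p x i)⁻¹ := by
        rw [map_inv]
        exact congrArg _ FreeGroup.lift_apply_of
      have h2 : ac p (FreeGroup.of i)⁻¹ = (p i)⁻¹ := by
        rw [map_inv]
        exact congrArg _ FreeGroup.lift_apply_of
      rw [h1, h2]
      show ((p i).symm y, e - x ((p i).symm y) i) = ((p i).symm y, e + (0 - x ((p i).symm y) i))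
      rw [zero_sub, sub_eq_add_neg]
    | mul a b ha hb =>
      intro y e
      rw [map_mul, map_mul, Equiv.Perm.mul_apply, Equiv.Perm.mul_apply, Equiv.Perm.mul_apply]
      rw [hb y e, ha]
      have e1 : Ph p x b (y, 0) = (ac p b y, (Ph p x b (y, 0)).2) := by
        have := hb y 0
        rwa [zero_add] at this
      conv_rhs => rw [e1, ha]
      rw [add_assoc]
  exact main w

section hol

variable {Y : Type} (p : Fin 7 → Equiv.Perm Y) (x : Y → Al)

theorem hol_mul (a b : FreeGroup (Fin 7)) (y : Y) :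
    hol p x (a * b) y = hol p x b y + hol p x a (ac p b y) := by
  unfold hol
  rw [map_mul, Equiv.Perm.mul_apply, Ph_eq p x b, zero_add, Ph_eq p x a]
  rfl

theorem hol_one (y : Y) : hol p x 1 y = 0 := by
  unfold hol
  simp

theorem hol_of (i : Fin 7) (y : Y) : hol p x (FreeGroup.of i) y = x y i := by
  unfold hol Ph
  rw [FreeGroup.lift_apply_of]
  show 0 + x y i = _
  rw [zero_add]

theorem hol_inv (a : FreeGroup (Fin 7)) (y : Y) :
    hol p x a⁻¹ y = - hol p x a (ac p a⁻¹ y) := by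
  have h := hol_mul p x a a⁻¹ y
  rw [mul_inv_cancel, hol_one] at h
  exact eq_neg_of_add_eq_zero_left h.symm

theorem hol_add (x' : Y → Al) (w : FreeGroup (Fin 7)) (y : Y) :
    hol p (x + x') w y = hol p x w y + hol p x' w y := by
  induction w using FreeGroup.induction_on generalizing y with
  | C1 => simp [hol_one]
  | of i =>
    show hol p (x + x') (FreeGroup.of i) y = hol p x (FreeGroup.of i) y + hol p x' (FreeGroup.of i) y
    rw [hol_of, hol_of, hol_of]
    rfl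
  | inv_of i ih =>
    rw [hol_inv, hol_inv, hol_inv, ih]
    ring
  | mul a b ha hb =>
    rw [hol_mul, hol_mul, hol_mul, ha, hb]
    ring

/-- coboundaries. -/
theorem hol_cob (F : Y → ZMod 2) (w : FreeGroup (Fin 7)) (y : Y) :
    hol p (fun y i => F (p i y) - F y) w y = F (ac p w y) - F y := by
  induction w using FreeGroup.induction_on generalizing y with
  | C1 => simp [hol_one]
  | of i =>
    show hol p _ (FreeGroup.of i) y = F (ac p (FreeGroup.of i) y) - F y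
    rw [hol_of]
    unfold ac
    rw [FreeGroup.lift_apply_of]
  | inv_of i ih =>
    rw [hol_inv, ih]
    have : ac p (FreeGroup.of i) (ac p (FreeGroup.of i)⁻¹ y) = y := by
      rw [← Equiv.Perm.mul_apply, ← map_mul, mul_inv_cancel, map_one]
      rfl
    rw [this]
    ring
  | mul a b ha hb =>
    rw [hol_mul, ha, hb, map_mul, Equiv.Perm.mul_apply]
    ring

theorem hol_loc (w : FreeGroup (Fin 7)) (y : Y) : ∃ D : Finset Y, ∀ x x' : Y → Al,
    (∀ d ∈ D, x d = x' d) → hol p x w y = hol p x' w y := by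
  classical
  induction w using FreeGroup.induction_on generalizing y with
  | C1 => exact ⟨∅, fun x x' _ => by rw [hol_one, hol_one]⟩
  | of i =>
    refine ⟨{y}, fun x x' h => ?_⟩
    show hol p x (FreeGroup.of i) y = hol p x' (FreeGroup.of i) y
    rw [hol_of, hol_of, h y (Finset.mem_singleton_self y)]
  | inv_of i ih =>
    obtain ⟨D, hD⟩ := ih (ac p (FreeGroup.of i)⁻¹ y)
    exact ⟨D, fun x x' h => by rw [hol_inv, hol_inv, hD x x' h]⟩
  | mul a b ha hb =>
    obtain ⟨D, hD⟩ := hb y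
    obtain ⟨D', hD'⟩ := ha (ac p b y)
    refine ⟨D ∪ D', fun x x' h => ?_⟩
    rw [hol_mul, hol_mul, hD x x' fun d hd => h d (Finset.mem_union_left _ hd),
      hD' x x' fun d hd => h d (Finset.mem_union_right _ hd)]

/-- equivariant maps. -/
theorem ac_map {Y' : Type} (p' : Fin 7 → Equiv.Perm Y') (f : Y → Y')
    (hf : ∀ i y, f (p i y) = p' i (f y)) (w : FreeGroup (Fin 7)) (y : Y) :
    f (ac p w y) = ac p' w (f y) := by
  induction w using FreeGroup.induction_on generalizing y with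
  | C1 => simp
  | of i =>
    show f (ac p (FreeGroup.of i) y) = ac p' (FreeGroup.of i) (f y)
    unfold ac
    rw [FreeGroup.lift_apply_of, FreeGroup.lift_apply_of]
    exact hf i y
  | inv_of i ih =>
    have h1 := ih (ac p (FreeGroup.of i)⁻¹ y)
    have h2 : ac p (FreeGroup.of i) (ac p (FreeGroup.of i)⁻¹ y) = y := by
      rw [← Equiv.Perm.mul_apply, ← map_mul, mul_inv_cancel, map_one]
      rfl
    rw [h2] at h1
    rw [h1, ← Equiv.Perm.mul_apply, ← map_mul, inv_mul_cancel, map_one]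
    rfl
  | mul a b ha hb =>
    rw [map_mul, Equiv.Perm.mul_apply, ha, hb, map_mul, Equiv.Perm.mul_apply]

theorem hol_map {Y' : Type} (p' : Fin 7 → Equiv.Perm Y') (x' : Y' → Al) (f : Y → Y')
    (hf : ∀ i y, f (p i y) = p' i (f y)) (hx : ∀ y, x y = x' (f y)) (w : FreeGroup (Fin 7))
    (y : Y) : hol p x w y = hol p' x' w (f y) := by
  induction w using FreeGroup.induction_on generalizing y with
  | C1 => simp [hol_one]
  | of i =>
    show hol p x (FreeGroup.of i) y = hol p' x' (FreeGroup.of i) (f y)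
    rw [hol_of, hol_of, hx]
  | inv_of i ih =>
    rw [hol_inv, hol_inv, ih, ac_map p p' f hf]
  | mul a b ha hb =>
    rw [hol_mul, hol_mul, ha, hb, ac_map p p' f hf]

end hol

/-- `a i` are the generators, as words. -/
abbrev o (i : Fin 7) : FreeGroup (Fin 7) := FreeGroup.of i

/-- the relations: `l = r z ^ e`. -/
def LL : List (FreeGroup (Fin 7) × FreeGroup (Fin 7) × ZMod 2) :=
  [(o 1 * o 2, o 2 * o 1, 0),
   (o 0 * (o 1 * o 0 * (o 1)⁻¹), (o 1 * o 0 * (o 1)⁻¹) * o 0, 0),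
   (o 2 * o 0 * (o 2)⁻¹, o 1 * o 0 * (o 1)⁻¹ * (o 0) ^ (-1 : ℤ), 0),
   (o 4 * o 5, o 5 * o 4, 0),
   (o 3 * (o 4 * o 3 * (o 4)⁻¹), (o 4 * o 3 * (o 4)⁻¹) * o 3, 0),
   (o 5 * o 3 * (o 5)⁻¹, o 4 * o 3 * (o 4)⁻¹ * (o 3) ^ (1 : ℤ), 0),
   (o 0 * o 3, o 3 * o 0, 0), (o 0 * o 4, o 4 * o 0, 0), (o 0 * o 5, o 5 * o 0, 0),
   (o 1 * o 3, o 3 * o 1, 0), (o 1 * o 4, o 4 * o 1, 0), (o 1 * o 5, o 5 * o 1, 0),
   (o 2 * o 3, o 3 * o 2, 0), (o 2 * o 4, o 4 * o 2, 0), (o 2 * o 5, o 5 * o 2, 0),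
   (o 6 * (o 0 * o 3), (o 0 * o 3) * o 6, 1),
   (o 6 * (o 1 * o 4), (o 1 * o 4) * o 6, 0)]

theorem LL_rel {W : Type} [Group W] (w : Fin 7 → W) (z : ZMod 2 → W) (hz : z 0 = 1)
    (h : ∀ t ∈ LL, FreeGroup.lift w t.1 = FreeGroup.lift w t.2.1 * z t.2.2) :
    Rel7 w (z 1) := by
  simp only [LL, List.forall_mem_cons, List.not_mem_nil, map_mul, map_inv, map_zpow,
    FreeGroup.lift_apply_of, hz, mul_one] at h
  obtain ⟨h1, h2, h3, h4, h5, h6, h7, h8, h9, h10, h11, h12, h13, h14, h15, h16, h17, -⟩ := h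
  exact ⟨⟨h1, h2, h3⟩, ⟨h4, h5, h6⟩, h7, h8, h9, h10, h11, h12, h13, h14, h15, h16, h17⟩

theorem rel_LL {W : Type} [Group W] (w : Fin 7 → W) (h : Rel7 w 1) :
    ∀ t ∈ LL, FreeGroup.lift w t.1 = FreeGroup.lift w t.2.1 := by
  obtain ⟨⟨h1, h2, h3⟩, ⟨h4, h5, h6⟩, h7, h8, h9, h10, h11, h12, h13, h14, h15, h16, h17⟩ := h
  rw [mul_one] at h16
  simp only [LL, List.forall_mem_cons, List.not_mem_nil, map_mul, map_inv, map_zpow,
    FreeGroup.lift_apply_of]
  exact ⟨h1, h2, h3, h4, h5, h6, h7, h8, h9, h10, h11, h12, h13, h14, h15, h16, h17,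
    fun _ h => h.elim⟩

section gen

variable {G : Type} [Group G] (gn : Fin 7 → G)
  (L : List (FreeGroup (Fin 7) × FreeGroup (Fin 7) × ZMod 2))

/-- left multiplication. -/
def lm (i : Fin 7) : Equiv.Perm G := Equiv.mulLeft (gn i)

theorem ac_lm (w : FreeGroup (Fin 7)) (g : G) : ac (lm gn) w g = FreeGroup.lift gn w * g := by
  induction w using FreeGroup.induction_on generalizing g with
  | C1 => simp
  | of i =>
    show ac (lm gn) (FreeGroup.of i) g = _
    unfold ac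
    rw [FreeGroup.lift_apply_of]
    show gn i * g = FreeGroup.lift gn (FreeGroup.of i) * g
    rw [FreeGroup.lift_apply_of]
  | inv_of i ih =>
    have h2 : ac (lm gn) (FreeGroup.of i) (ac (lm gn) (FreeGroup.of i)⁻¹ g) = g := by
      rw [← Equiv.Perm.mul_apply, ← map_mul, mul_inv_cancel, map_one]
      rfl
    rw [ih] at h2
    have h3 := eq_inv_mul_of_mul_eq h2
    rw [h3, map_inv (FreeGroup.lift gn)]
  | mul a b ha hb =>
    rw [map_mul, Equiv.Perm.mul_apply, hb, ha, map_mul, mul_assoc]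

/-- the subshift. -/
def XX : Set (G → Al) :=
  {x | ∀ t ∈ L, ∀ g, hol (lm gn) x t.1 g = hol (lm gn) x t.2.1 g + t.2.2}

theorem hol_sh (x : G → Al) (k : G) (w : FreeGroup (Fin 7)) (g : G) :
    hol (lm gn) (sh k x) w g = hol (lm gn) x w (g * k) :=
  hol_map (lm gn) (sh k x) (lm gn) x (fun g => g * k) (fun _ _ => mul_assoc _ _ _)
    (fun _ => rfl) w g

theorem XX_sh (x : G → Al) (hx : x ∈ XX gn L) (k : G) : sh k x ∈ XX gn L := by
  intro t ht g
  rw [hol_sh, hol_sh]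
  exact hx t ht _

theorem XX_sft : ∃ (S : Finset G) (P : Set (S → Al)),
    XX gn L = {x | ∀ g : G, (fun s : S => x (s.1 * g)) ∈ P} := by
  classical
  have h1 : ∀ w : FreeGroup (Fin 7), ∃ D : Finset G, ∀ x x' : G → Al,
      (∀ d ∈ D, x d = x' d) → hol (lm gn) x w 1 = hol (lm gn) x' w 1 :=
    fun w => hol_loc (lm gn) w 1
  choose D hD using h1
  obtain ⟨S, hS⟩ : ∃ S : Finset G, ∀ t ∈ L, D t.1 ∪ D t.2.1 ⊆ S := by
    clear hD
    induction L with
    | nil => exact ⟨∅, by simp⟩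
    | cons a l ih =>
      obtain ⟨S, hS⟩ := ih
      refine ⟨(D a.1 ∪ D a.2.1) ∪ S, ?_⟩
      intro t ht
      rcases List.mem_cons.1 ht with rfl | ht
      · exact Finset.subset_union_left
      · exact (hS t ht).trans Finset.subset_union_right
  refine ⟨S, {p | ∃ y ∈ XX gn L, ∀ s : S, y s.1 = p s}, ?_⟩
  ext x
  constructor
  · intro hx g
    exact ⟨sh g x, XX_sh gn L x hx g, fun s => rfl⟩
  · intro hx t ht g
    obtain ⟨y, hy, hys⟩ := hx g
    have hag : ∀ d ∈ D t.1 ∪ D t.2.1, sh g x d = y d := by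
      intro d hd
      exact (hys ⟨d, hS t ht hd⟩).symm
    have e1 := hD t.1 (sh g x) y fun d hd => hag d (Finset.mem_union_left _ hd)
    have e2 := hD t.2.1 (sh g x) y fun d hd => hag d (Finset.mem_union_right _ hd)
    rw [hol_sh, one_mul] at e1 e2
    rw [e1, e2]
    exact hy t ht 1

variable (hL : ∀ t ∈ L, FreeGroup.lift gn t.1 = FreeGroup.lift gn t.2.1)
  (hUP : ∀ (W : Type) [Group W] (w : Fin 7 → W),
    (∀ t ∈ L, FreeGroup.lift w t.1 = FreeGroup.lift w t.2.1) →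
      ∃ Ψ : G →* W, ∀ i, Ψ (gn i) = w i)
  (hgen : Subgroup.closure (Set.range gn) = (⊤ : Subgroup G))

include hL

theorem ac_LL (t : FreeGroup (Fin 7) × FreeGroup (Fin 7) × ZMod 2) (ht : t ∈ L) (g : G) :
    ac (lm gn) t.1 g = ac (lm gn) t.2.1 g := by
  rw [ac_lm, ac_lm, hL t ht]

include hUP hgen

/-- local to global. -/
theorem exact_of (θ : G → Al) (h : ∀ t ∈ L, ∀ g, hol (lm gn) θ t.1 g = hol (lm gn) θ t.2.1 g) :
    ∃ F : G → ZMod 2, ∀ g i, θ g i = F (gn i * g) - F g := by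
  obtain ⟨Ψ, hΨ⟩ := hUP _ (sg (lm gn) θ) (by
    intro t ht
    ext1 q
    obtain ⟨g, e⟩ := q
    show Ph (lm gn) θ t.1 (g, e) = Ph (lm gn) θ t.2.1 (g, e)
    rw [Ph_eq, Ph_eq, ac_LL gn L hL t ht, h t ht])
  have hfst : ∀ (g : G) (q : G × ZMod 2), (Ψ g q).1 = g * q.1 := by
    intro g
    have hg : g ∈ Subgroup.closure (Set.range gn) := by rw [hgen]; trivial
    induction hg using Subgroup.closure_induction with
    | mem s hs =>
      obtain ⟨i, rfl⟩ := hs
      intro q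
      rw [hΨ]
      rfl
    | one => intro q; simp
    | mul a b _ _ iha ihb =>
      intro q
      rw [map_mul, Equiv.Perm.mul_apply, iha, ihb, mul_assoc]
    | inv a _ iha =>
      intro q
      have h1 := iha (Ψ a⁻¹ q)
      rw [← Equiv.Perm.mul_apply, ← map_mul, mul_inv_cancel, map_one] at h1
      have h2 : q.1 = a * (Ψ a⁻¹ q).1 := h1
      rw [h2, inv_mul_cancel_left]
  refine ⟨fun g => (Ψ g (1, 0)).2, fun g i => ?_⟩
  show θ g i = (Ψ (gn i * g) (1, 0)).2 - (Ψ g (1, 0)).2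
  rw [map_mul, Equiv.Perm.mul_apply, hΨ]
  have h1 : Ψ g (1, 0) = (g, (Ψ g (1, 0)).2) := Prod.ext (by rw [hfst, mul_one]) rfl
  conv_rhs => rw [h1]
  show θ g i = (Ψ g (1, 0)).2 + θ g i - (Ψ g (1, 0)).2
  ring

theorem XX_si : ∃ Δ : Finset G, ∀ Ω₁ Ω₂ : Finset G,
    (∀ d ∈ Δ, ∀ w ∈ Ω₁, d * w ∉ Ω₂) →
    ∀ x₁ ∈ XX gn L, ∀ x₂ ∈ XX gn L, ∃ z ∈ XX gn L,
      (∀ w ∈ Ω₁, z w = x₁ w) ∧ (∀ w ∈ Ω₂, z w = x₂ w) := by
  classical
  obtain ⟨S, hS1, hSg⟩ : ∃ S : Finset G, (1 : G) ∈ S ∧ ∀ i, gn i ∈ S :=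
    ⟨insert 1 (Finset.univ.image gn), Finset.mem_insert_self _ _, fun i =>
      Finset.mem_insert_of_mem (Finset.mem_image.2 ⟨i, Finset.mem_univ _, rfl⟩)⟩
  obtain ⟨Δ, hΔ⟩ : ∃ Δ : Finset G, ∀ a ∈ S, ∀ b ∈ S, a⁻¹ * b ∈ Δ :=
    ⟨Finset.image₂ (fun a b => a⁻¹ * b) S S, fun a ha b hb => Finset.mem_image₂_of_mem ha hb⟩
  refine ⟨Δ, ?_⟩
  intro Ω₁ Ω₂ hd x₁ hx₁ x₂ hx₂
  have hsum : ∀ a : ZMod 2, a + a = 0 := fun a => CharTwo.add_self_eq_zero a
  obtain ⟨F, hF⟩ := exact_of gn L hL hUP hgen (x₁ + x₂) (by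
    intro t ht g
    rw [hol_add, hol_add, hx₁ t ht g, hx₂ t ht g]
    rw [add_add_add_comm, hsum, add_zero])
  let F' : G → ZMod 2 := fun g => if ∃ s ∈ S, ∃ w ∈ Ω₁, g = s * w then F g else 0
  refine ⟨x₂ + fun g i => F' (lm gn i g) - F' g, ?_, ?_, ?_⟩
  · intro t ht g
    rw [hol_add, hol_add, hol_cob, hol_cob, ac_LL gn L hL t ht, hx₂ t ht g]
    ring
  · intro w hw
    funext i
    show x₂ w i + (F' (gn i * w) - F' w) = x₁ w i
    have e1 : F' w = F w := if_pos ⟨1, hS1, w, hw, (one_mul w).symm⟩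
    have e2 : F' (gn i * w) = F (gn i * w) := if_pos ⟨gn i, hSg i, w, hw, rfl⟩
    rw [e1, e2, ← hF]
    show x₂ w i + (x₁ w i + x₂ w i) = x₁ w i
    rw [add_comm (x₁ w i), ← add_assoc, hsum, zero_add]
  · intro w hw
    funext i
    show x₂ w i + (F' (gn i * w) - F' w) = x₂ w i
    have e1 : F' w = 0 := by
      apply if_neg
      rintro ⟨s, hs, w', hw', rfl⟩
      have h1 := hΔ 1 hS1 s hs
      rw [inv_one, one_mul] at h1
      exact hd s h1 w' hw' hw
    have e2 : F' (gn i * w) = 0 := by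
      apply if_neg
      rintro ⟨s, hs, w', hw', he⟩
      have hw2 : w = (gn i)⁻¹ * s * w' := by
        rw [mul_assoc, ← he, inv_mul_cancel_left]
      rw [hw2] at hw
      exact hd ((gn i)⁻¹ * s) (hΔ _ (hSg i) s hs) w' hw' hw
    rw [e1, e2, sub_zero, add_zero]

end gen

end Pool.Agent.TH88.NP
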