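import Mathlib
import Pool.Agent.TH88.NP.Sft

/-!
# The subshift is not empty and has no periodic points
-/

set_option autoImplicit false
set_option linter.unusedSectionVars false

namespace Pool.Agent.TH88.NP

open Pool.Agent.TH88.SI Polynomial

theorem GG_hL : ∀ t ∈ LL, FreeGroup.lift gen t.1 = FreeGroup.lift gen t.2.1 := rel_LL gen gen_rel

theorem GG_UP (W : Type) [Group W] (w : Fin 7 → W)
    (h : ∀ t ∈ LL, FreeGroup.lift w t.1 = FreeGroup.lift w t.2.1) :
    ∃ Ψ : GG →* W, ∀ i, Ψ (gen i) = w i := by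
  refine liftG (LL_rel w (fun _ => 1) rfl fun t ht => ?_)
  rw [mul_one]
  exact h t ht

/-- parity. -/
def Gd (π : Equiv.Perm ℚ) (e : ZMod 2) : Prop :=
  ∀ n : ℤ, ∃ m : ℤ, π n = m ∧ (m : ZMod 2) = n + e

theorem Gd.unique {π : Equiv.Perm ℚ} {e e' : ZMod 2} (h : Gd π e) (h' : Gd π e') : e = e' := by
  obtain ⟨m, h1, h2⟩ := h 0
  obtain ⟨m', h1', h2'⟩ := h' 0
  rw [h1] at h1'
  have : m = m' := by exact_mod_cast h1'
  subst this
  rw [h2] at h2'
  simpa using h2'

theorem Gd.mul {π π' : Equiv.Perm ℚ} {e e' : ZMod 2} (h : Gd π e) (h' : Gd π' e') :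
    Gd (π * π') (e + e') := by
  intro n
  obtain ⟨m, h1, h2⟩ := h' n
  obtain ⟨m', h3, h4⟩ := h m
  refine ⟨m', ?_, ?_⟩
  · rw [Equiv.Perm.mul_apply, h1, h3]
  · rw [h4, h2]
    ring

theorem Gd.one : Gd 1 0 := fun n => ⟨n, rfl, by simp⟩

theorem exists_rho : ∃ ρ : B (-1) →* Equiv.Perm ℚ, (∀ q, ρ (bv (-1)) q = 1 + q) ∧
    (∀ q, ρ (bx (-1)) q = (-1) * q) := by
  obtain ⟨ρ, h1, h2, -⟩ := B_eval (κ := -1) k1 (R := ℚ) (-1) (Units.mk0 (-2) (by norm_num))
    (by push_cast; norm_num)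
  exact ⟨ρ, h1, fun q => by rw [h2]; simp⟩

/-- the parity homomorphism. -/
noncomputable def rho : B (-1) →* Equiv.Perm ℚ := exists_rho.choose

theorem rho_v (q : ℚ) : rho (bv (-1)) q = 1 + q := exists_rho.choose_spec.1 q
theorem rho_x (q : ℚ) : rho (bx (-1)) q = (-1) * q := exists_rho.choose_spec.2 q

theorem gd_v : Gd (rho (bv (-1))) 1 := by
  intro n
  refine ⟨1 + n, ?_, ?_⟩
  · rw [rho_v]; push_cast; ring
  · push_cast; ring

theorem gd_vi : Gd (rho (bv (-1)))⁻¹ 1 := by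
  intro n
  refine ⟨n - 1, ?_, ?_⟩
  · rw [Equiv.Perm.inv_eq_iff_eq, rho_v]; push_cast; ring
  · push_cast
    have h2 : (2 : ZMod 2) = 0 := rfl
    linear_combination -h2

theorem gd_x : Gd (rho (bx (-1))) 0 := by
  intro n
  refine ⟨-n, ?_, ?_⟩
  · rw [rho_x]; push_cast; ring
  · push_cast
    have h2 : (2 : ZMod 2) = 0 := rfl
    linear_combination -(n : ZMod 2) * h2

theorem gd_xi : Gd (rho (bx (-1)))⁻¹ 0 := by
  intro n
  refine ⟨-n, ?_, ?_⟩
  · rw [Equiv.Perm.inv_eq_iff_eq, rho_x]; push_cast; ring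
  · push_cast
    have h2 : (2 : ZMod 2) = 0 := rfl
    linear_combination -(n : ZMod 2) * h2

theorem exists_chi (c : AA) (hc : c ∈ CC) : ∃ e, Gd (rho c.1) e ∧ Gd (rho c.1)⁻¹ e := by
  unfold CC at hc
  induction hc using Subgroup.closure_induction with
  | mem s hs =>
    rcases hs with rfl | rfl
    · exact ⟨1, gd_v, gd_vi⟩
    · exact ⟨0, gd_x, gd_xi⟩
  | one =>
    refine ⟨0, ?_, ?_⟩
    · rw [Prod.fst_one, map_one]; exact Gd.one
    · rw [Prod.fst_one, map_one, inv_one]; exact Gd.one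
  | mul a b _ _ iha ihb =>
    obtain ⟨e, h1, h2⟩ := iha
    obtain ⟨e', h3, h4⟩ := ihb
    refine ⟨e + e', ?_, ?_⟩
    · rw [Prod.fst_mul, map_mul]; exact h1.mul h3
    · rw [Prod.fst_mul, map_mul, mul_inv_rev, add_comm]; exact h4.mul h2
  | inv a _ iha =>
    obtain ⟨e, h1, h2⟩ := iha
    refine ⟨e, ?_, ?_⟩
    · rw [Prod.fst_inv, map_inv]; exact h2
    · rw [Prod.fst_inv, map_inv, inv_inv]; exact h1

/-- `χ`. -/
noncomputable def chi (c : CC) : ZMod 2 := (exists_chi c.1 c.2).choose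

theorem chi_spec (c : CC) : Gd (rho c.1.1) (chi c) := (exists_chi c.1 c.2).choose_spec.1

theorem chi_mul (c c' : CC) : chi (c * c') = chi c + chi c' := by
  have h1 := chi_spec (c * c')
  have h2 := (chi_spec c).mul (chi_spec c')
  rw [← map_mul] at h2
  exact h1.unique h2

/-- the cocycle. -/
noncomputable def kap (a : AA) : ZMod 2 := chi (kk CC a)

theorem kap_v (a : AA) : kap (cv * a) = kap a + 1 := by
  unfold kap
  have h1 : kk CC (cv * a) = ⟨cv, cv_mem⟩ * kk CC a := kk_mul CC ⟨cv, cv_mem⟩ a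
  rw [h1, chi_mul, add_comm]
  congr 1
  exact (chi_spec ⟨cv, cv_mem⟩).unique gd_v

theorem kap_x (a : AA) : kap (cx * a) = kap a := by
  unfold kap
  have h1 : kk CC (cx * a) = ⟨cx, cx_mem⟩ * kk CC a := kk_mul CC ⟨cx, cx_mem⟩ a
  rw [h1, chi_mul]
  have h2 : chi ⟨cx, cx_mem⟩ = 0 := (chi_spec ⟨cx, cx_mem⟩).unique gd_x
  rw [h2, zero_add]

/-- the point. -/
noncomputable def x0 : GG → Al := fun g i => if i = 6 then kap g.right else 0

theorem x0_mem : x0 ∈ XX gen LL := by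
  have h6 : ∀ g : GG, x0 g 6 = kap g.right := fun g => if_pos rfl
  have h0 : ∀ (g : GG) (i : Fin 7), i ≠ 6 → x0 g i = 0 := fun g i hi => if_neg hi
  have a0 : ∀ g : GG, x0 g 0 = 0 := fun g => h0 g 0 (by decide)
  have a1 : ∀ g : GG, x0 g 1 = 0 := fun g => h0 g 1 (by decide)
  have a2 : ∀ g : GG, x0 g 2 = 0 := fun g => h0 g 2 (by decide)
  have a3 : ∀ g : GG, x0 g 3 = 0 := fun g => h0 g 3 (by decide)
  have a4 : ∀ g : GG, x0 g 4 = 0 := fun g => h0 g 4 (by decide)
  have a5 : ∀ g : GG, x0 g 5 = 0 := fun g => h0 g 5 (by decide)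
  have r1 : ∀ g : GG, (ac (lm gen) (o 0 * o 3) g).right = cv * g.right := by
    intro g
    rw [ac_lm, map_mul, FreeGroup.lift_apply_of, FreeGroup.lift_apply_of]
    show ((bv (-1), 1) : AA) * (1, bv 1) * g.right = cv * g.right
    simp [cv]
  have r2 : ∀ g : GG, (ac (lm gen) (o 1 * o 4) g).right = cx * g.right := by
    intro g
    rw [ac_lm, map_mul, FreeGroup.lift_apply_of, FreeGroup.lift_apply_of]
    show ((bx (-1), 1) : AA) * (1, bx 1) * g.right = cx * g.right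
    simp [cx]
  intro t ht g
  generalize hp : lm gen = p at *
  simp only [LL, List.mem_cons, List.not_mem_nil, or_false] at ht
  rcases ht with rfl | rfl | rfl | rfl | rfl | rfl | rfl | rfl | rfl | rfl | rfl | rfl | rfl | rfl |
    rfl | rfl | rfl
  · simp only [hol_mul, hol_of, a1, a2, add_zero]
  · simp only [hol_mul, hol_of, hol_inv, a0, a1, add_zero, neg_zero]
  · simp only [zpow_neg_one, hol_mul, hol_of, hol_inv, a0, a1, a2, add_zero, neg_zero]
  · simp only [hol_mul, hol_of, a4, a5, add_zero]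
  · simp only [hol_mul, hol_of, hol_inv, a3, a4, add_zero, neg_zero]
  · simp only [zpow_one, hol_mul, hol_of, hol_inv, a3, a4, a5, add_zero, neg_zero]
  · simp only [hol_mul, hol_of, a0, a3, add_zero]
  · simp only [hol_mul, hol_of, a0, a4, add_zero]
  · simp only [hol_mul, hol_of, a0, a5, add_zero]
  · simp only [hol_mul, hol_of, a1, a3, add_zero]
  · simp only [hol_mul, hol_of, a1, a4, add_zero]
  · simp only [hol_mul, hol_of, a1, a5, add_zero]
  · simp only [hol_mul, hol_of, a2, a3, add_zero]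
  · simp only [hol_mul, hol_of, a2, a4, add_zero]
  · simp only [hol_mul, hol_of, a2, a5, add_zero]
  · show hol p x0 (o 6 * (o 0 * o 3)) g = hol p x0 ((o 0 * o 3) * o 6) g + 1
    rw [hol_mul p x0 (o 6), hol_of, h6, r1, kap_v, hol_mul p x0 (o 0 * o 3) (o 6), hol_of, h6,
      hol_mul, hol_mul, hol_of, hol_of, hol_of, hol_of, a0, a3, a0, a3]
    ring
  · show hol p x0 (o 6 * (o 1 * o 4)) g = hol p x0 ((o 1 * o 4) * o 6) g + 0
    rw [hol_mul p x0 (o 6), hol_of, h6, r2, kap_x, hol_mul p x0 (o 1 * o 4) (o 6), hol_of, h6,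
      hol_mul, hol_mul, hol_of, hol_of, hol_of, hol_of, a1, a4, a1, a4]
    ring

theorem zt_comm {Y : Type} (p : Fin 7 → Equiv.Perm Y) (x : Y → Al) (i : Fin 7) (e : ZMod 2) :
    Commute (sg p x i) (zt Y e) := by
  show _ * _ = _ * _
  ext1 q
  show (p i q.1, q.2 + e + x q.1 i) = (p i q.1, q.2 + x q.1 i + e)
  rw [add_right_comm]

theorem zt_zero (Y : Type) : zt Y 0 = 1 := by
  ext1 q
  show (q.1, q.2 + 0) = q
  rw [add_zero]

theorem zt_add (Y : Type) (e e' : ZMod 2) : zt Y e * zt Y e' = zt Y (e + e') := by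
  ext1 q
  show (q.1, q.2 + e' + e) = (q.1, q.2 + (e + e'))
  rw [add_assoc, add_comm e']

theorem no_per (x : GG → Al) (hx : x ∈ XX gen LL)
    (hfin : (Set.range (fun g : GG => sh g x)).Finite) : False := by
  have hN : (FP.stab x).FiniteIndex := FP.stab_fi x hfin
  have hYf : Finite (GG ⧸ FP.stab x) := inferInstance
  -- the finite model
  obtain ⟨Y, hY, q0, p, xb, f, hf, hpf, hxf⟩ : ∃ (Y : Type) (_ : Finite Y) (_ : Y)
      (p : Fin 7 → Equiv.Perm Y) (xb : Y → Al) (f : GG → Y), Function.Surjective f ∧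
      (∀ i y, f (lm gen i y) = p i (f y)) ∧ (∀ y, x y = xb (f y)) := by
    refine ⟨GG ⧸ FP.stab x, hYf, QuotientGroup.mk 1, fun i => MulAction.toPerm (gen i),
      fun q => x (Quotient.out q), QuotientGroup.mk, QuotientGroup.mk_surjective,
      fun i y => rfl, fun y => ?_⟩
    have h1 : y⁻¹ * Quotient.out (QuotientGroup.mk y : GG ⧸ FP.stab x) ∈ FP.stab x := by
      have e1 : (QuotientGroup.mk (Quotient.out (QuotientGroup.mk y : GG ⧸ FP.stab x)) :
        GG ⧸ FP.stab x) = QuotientGroup.mk y := Quotient.out_eq _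
      exact QuotientGroup.eq.1 e1.symm
    have h2 := h1 y
    rw [mul_inv_cancel_left] at h2
    exact h2.symm
  have hrel : Rel7 (sg p xb) (zt Y 1) := by
    refine LL_rel (sg p xb) (zt Y) (zt_zero Y) ?_
    intro t ht
    ext1 q
    obtain ⟨y, e⟩ := q
    obtain ⟨g, rfl⟩ := hf y
    show Ph p xb t.1 (f g, e) = Ph p xb t.2.1 (f g, e + t.2.2)
    rw [Ph_eq, Ph_eq, ← hol_map (lm gen) x p xb f hpf hxf, ← hol_map (lm gen) x p xb f hpf hxf,
      ← ac_map (lm gen) p f hpf, ← ac_map (lm gen) p f hpf, ac_LL gen LL GG_hL t ht, hx t ht]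
    refine Prod.ext rfl ?_
    show e + (hol (lm gen) x t.2.1 g + t.2.2) = e + t.2.2 + hol (lm gen) x t.2.1 g
    rw [add_assoc, add_comm t.2.2]
  obtain ⟨α, a0, a1, a2, a3, a4, a5⟩ := liftA hrel
  have hcv : α cv = sg p xb 0 * sg p xb 3 := by
    have : cv = (bv (-1), 1) * (1, bv 1) := by
      unfold cv
      simp
    rw [this, map_mul, a0, a3]
  have hcx : α cx = sg p xb 1 * sg p xb 4 := by
    have : cx = (bx (-1), 1) * (1, bx 1) := by
      unfold cx
      simp
    rw [this, map_mul, a1, a4]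
  have hc : ∀ c ∈ CC, ∃ e, Gd (rho c.1) e ∧ Gd (rho c.1)⁻¹ e ∧
      sg p xb 6 * α c = α c * sg p xb 6 * zt Y e ∧ ∀ e', Commute (α c) (zt Y e') := by
    intro c hcm
    unfold CC at hcm
    induction hcm using Subgroup.closure_induction with
    | mem s hs =>
      rcases hs with rfl | rfl
      · refine ⟨1, gd_v, gd_vi, ?_, ?_⟩
        · rw [hcv]; exact hrel.tv
        · intro e'
          rw [hcv]
          exact (zt_comm p xb 0 e').mul_left (zt_comm p xb 3 e')
      · refine ⟨0, gd_x, gd_xi, ?_, ?_⟩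
        · rw [hcx, zt_zero, mul_one]; exact hrel.tx
        · intro e'
          rw [hcx]
          exact (zt_comm p xb 1 e').mul_left (zt_comm p xb 4 e')
    | one =>
      refine ⟨0, ?_, ?_, ?_, ?_⟩
      · rw [Prod.fst_one, map_one]; exact Gd.one
      · rw [Prod.fst_one, map_one, inv_one]; exact Gd.one
      · rw [map_one, zt_zero]; group
      · intro e'; rw [map_one]; exact Commute.one_left _
    | mul a b _ _ iha ihb =>
      obtain ⟨e, h1, h2, h5, h7⟩ := iha
      obtain ⟨e', h3, h4, h6, h8⟩ := ihb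
      refine ⟨e + e', ?_, ?_, ?_, ?_⟩
      · rw [Prod.fst_mul, map_mul]; exact h1.mul h3
      · rw [Prod.fst_mul, map_mul, mul_inv_rev, add_comm]; exact h4.mul h2
      · rw [map_mul, ← mul_assoc, h5]
        have h9 : zt Y e * α b = α b * zt Y e := ((h8 e).eq).symm
        calc α a * sg p xb 6 * zt Y e * α b = α a * sg p xb 6 * (zt Y e * α b) := by group
          _ = α a * (sg p xb 6 * α b) * zt Y e := by rw [h9]; group
          _ = α a * (α b * sg p xb 6 * zt Y e') * zt Y e := by rw [h6]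
          _ = α a * α b * sg p xb 6 * (zt Y e' * zt Y e) := by group
          _ = _ := by rw [zt_add, add_comm e']
      · intro e''
        rw [map_mul]
        exact (h7 e'').mul_left (h8 e'')
    | inv a _ iha =>
      obtain ⟨e, h1, h2, h5, h7⟩ := iha
      refine ⟨e, ?_, ?_, ?_, ?_⟩
      · rw [Prod.fst_inv, map_inv]; exact h2
      · rw [Prod.fst_inv, map_inv, inv_inv]; exact h1
      · rw [map_inv]
        have h9 : zt Y e * (α a)⁻¹ = (α a)⁻¹ * zt Y e := ((h7 e).inv_left.eq).symm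
        have h10 : zt Y e * zt Y e = 1 := by
          rw [zt_add, CharTwo.add_self_eq_zero, zt_zero]
        have h11 : (α a)⁻¹ * (sg p xb 6 * α a) * (α a)⁻¹ * zt Y e = (α a)⁻¹ * sg p xb 6 * zt Y e := by
          group
        rw [h5] at h11
        rw [← h11]
        calc sg p xb 6 * (α a)⁻¹ = sg p xb 6 * (α a)⁻¹ * (zt Y e * zt Y e) := by rw [h10, mul_one]
          _ = sg p xb 6 * ((α a)⁻¹ * zt Y e) * zt Y e := by group
          _ = sg p xb 6 * (zt Y e * (α a)⁻¹) * zt Y e := by rw [h9]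
          _ = _ := by group
      · intro e'
        rw [map_inv]
        exact (h7 e').inv_left
  -- the special element
  have hWf : Finite (Equiv.Perm (Y × ZMod 2)) := inferInstance
  let m : ℕ := Nat.card (Equiv.Perm (Y × ZMod 2))
  have hm0 : 0 < m := Nat.card_pos
  have hpow : ∀ w : Equiv.Perm (Y × ZMod 2), w ^ m = 1 := fun w => pow_card_eq_one'
  let α₁ : B (-1) →* Equiv.Perm (Y × ZMod 2) := α.comp (MonoidHom.inl _ _)
  let α₂ : B 1 →* Equiv.Perm (Y × ZMod 2) := α.comp (MonoidHom.inr _ _)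
  have k₁ : ∀ g : ℤ[X], α₁ (t1 ((X + C (-1)) ^ m * g)) = α₁ (t1 g) := by
    intro g
    have h1 := (B_bgd (-1)).th_uk k1 m g
    show α₁ ((B_bgd (-1)).th k1 _) = α₁ ((B_bgd (-1)).th k1 g)
    rw [← h1, map_mul, map_mul, map_inv, map_pow, hpow]
    simp
  have k₂ : ∀ g : ℤ[X], α₂ (t2 ((X + C 1) ^ m * g)) = α₂ (t2 g) := by
    intro g
    have h1 := (B_bgd 1).th_uk k2 m g
    show α₂ ((B_bgd 1).th k2 _) = α₂ ((B_bgd 1).th k2 g)
    rw [← h1, map_mul, map_mul, map_inv, map_pow, hpow]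
    simp
  let F : ℤ[X] := (1 - (X + C (-1)) ^ m) * (1 - (X + C 1) ^ m)
  have l₁ : α₁ (t1 F) = 1 := by
    have e1 : F = (1 - (X + C 1) ^ m) + -((X + C (-1)) ^ m * (1 - (X + C 1) ^ m)) := by
      show (1 - (X + C (-1)) ^ m) * (1 - (X + C 1) ^ m) = _
      ring
    rw [e1]
    show α₁ ((B_bgd (-1)).th k1 _) = 1
    rw [(B_bgd (-1)).th_add, (B_bgd (-1)).th_neg, map_mul, map_inv]
    have := k₁ (1 - (X + C 1) ^ m)
    unfold t1 at this
    rw [this, mul_inv_cancel]
  have l₂ : α₂ (t2 F) = 1 := by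
    have e1 : F = (1 - (X + C (-1)) ^ m) + -((X + C 1) ^ m * (1 - (X + C (-1)) ^ m)) := by
      show (1 - (X + C (-1)) ^ m) * (1 - (X + C 1) ^ m) = _
      ring
    rw [e1]
    show α₂ ((B_bgd 1).th k2 _) = 1
    rw [(B_bgd 1).th_add, (B_bgd 1).th_neg, map_mul, map_inv]
    have := k₂ (1 - (X + C (-1)) ^ m)
    unfold t2 at this
    rw [this, mul_inv_cancel]
  have l₃ : α (t1 F, t2 F) = 1 := by
    have e1 : ((t1 F, t2 F) : AA) = (t1 F, 1) * (1, t2 F) := by simp
    rw [e1, map_mul]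
    have e2 : α (t1 F, 1) = α₁ (t1 F) := rfl
    have e3 : α (1, t2 F) = α₂ (t2 F) := rfl
    rw [e2, e3, l₁, l₂, mul_one]
  obtain ⟨e, g1, -, g3, -⟩ := hc _ (theta_mem F)
  rw [l₃, mul_one, one_mul] at g3
  have he : e = 0 := by
    have h1 : zt Y e = 1 := (mul_eq_left.1 g3.symm)
    have h2 := congrArg (fun w : Equiv.Perm (Y × ZMod 2) => (w (q0, 0)).2) h1
    have h3 : (0 : ZMod 2) + e = 0 := h2
    rwa [zero_add] at h3
  obtain ⟨n, g4, g5⟩ := g1 0
  have g6 : rho (t1 F) 0 = F.eval₂ (Int.castRingHom ℚ) (-1) + 0 :=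
    (B_bgd (-1)).eval k1 rho (-1) rho_v rho_x F 0
  have g7 : F.eval₂ (Int.castRingHom ℚ) (-1) = ((F.eval (-1) : ℤ) : ℚ) := by
    have := Polynomial.eval_intCast_map (Int.castRingHom ℚ) F (-1)
    rw [Polynomial.eval_map] at this
    simpa using this
  have g8 : (n : ℚ) = ((F.eval (-1) : ℤ) : ℚ) := by
    rw [← g7, ← g4]
    have : ((0 : ℤ) : ℚ) = 0 := by norm_num
    show rho (t1 F) ((0 : ℤ) : ℚ) = _
    rw [this, g6, add_zero]
  have g9 : n = F.eval (-1) := by exact_mod_cast g8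
  have g10 : F.eval (-1) = 1 - (-2) ^ m := by
    show ((1 - (X + C (-1)) ^ m) * (1 - (X + C 1) ^ m) : ℤ[X]).eval (-1) = _
    simp only [eval_mul, eval_sub, eval_one, eval_pow, eval_add, eval_X, eval_C]
    have : ((-1 : ℤ) + 1) ^ m = 0 := by
      rw [neg_add_cancel]
      exact zero_pow hm0.ne'
    rw [this]
    norm_num
  rw [g9, g10, he] at g5
  have g11 : (((1 - (-2) ^ m : ℤ)) : ZMod 2) = 1 := by
    push_cast
    have : (-2 : ZMod 2) = 0 := rfl
    rw [this, zero_pow hm0.ne', sub_zero]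
  rw [g11] at g5
  simp at g5

end Pool.Agent.TH88.NP
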